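import Mathlib
import Pool.Agent.R366.PP.Main

set_option autoImplicit false

/-!
# Binary forms over a number field vanishing at a point: the coefficients are large
-/

namespace Pool.Agent.R366.RD

open NumberField

variable {K : Type} [Field K] [NumberField K]

/-- the value of the binary form with the coefficients `c` -/
def bin {R : Type} [CommRing R] (q : ℕ) (c : Fin (q + 1) → R) (s : Fin 2 → R) : R :=
  ∑ i : Fin (q + 1), c i * (s 0 ^ (i : ℕ) * s 1 ^ (q - (i : ℕ)))

/-- the absolute value of the norm -/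
noncomputable def nm (a : 𝓞 K) : ℝ := ∏ w : InfinitePlace K, w (a : K) ^ w.mult

lemma nm_mul (a b : 𝓞 K) : nm (a * b) = nm a * nm b := by
  unfold nm
  rw [← Finset.prod_mul_distrib]
  refine Finset.prod_congr rfl fun w _ => ?_
  have h1 : ((a * b : 𝓞 K) : K) = (a : K) * (b : K) := map_mul (algebraMap (𝓞 K) K) a b
  rw [h1, map_mul, mul_pow]

lemma nm_nonneg (a : 𝓞 K) : 0 ≤ nm a := Finset.prod_nonneg fun w _ => by positivity

lemma one_le_nm {a : 𝓞 K} (ha : a ≠ 0) : 1 ≤ nm a := by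
  unfold nm
  rw [InfinitePlace.prod_eq_abs_norm (a : K)]
  have h1 : Algebra.norm ℤ a ≠ 0 := Algebra.norm_ne_zero_iff.2 ha
  have h2 : (1 : ℤ) ≤ |Algebra.norm ℤ a| := Int.one_le_abs h1
  have h3 : Algebra.norm ℚ (a : K) = ((Algebra.norm ℤ a : ℤ) : ℚ) := (Algebra.coe_norm_int a).symm
  rw [h3]
  have h4 : (1 : ℚ) ≤ |((Algebra.norm ℤ a : ℤ) : ℚ)| := by exact_mod_cast h2
  exact_mod_cast h4

lemma nm_le_of_dvd {a b : 𝓞 K} (h : a ∣ b) (hb : b ≠ 0) : nm a ≤ nm b := by
  obtain ⟨e, rfl⟩ := h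
  rw [nm_mul]
  exact le_mul_of_one_le_right (nm_nonneg a) (one_le_nm (right_ne_zero_of_mul hb))

lemma nm_le {a : 𝓞 K} {X : ℝ} (h : ∀ w : InfinitePlace K, w (a : K) ≤ X) :
    nm a ≤ X ^ Module.finrank ℚ K := by
  unfold nm
  rw [← InfinitePlace.sum_mult_eq, ← Finset.prod_pow_eq_pow_sum]
  exact Finset.prod_le_prod (fun w _ => by positivity) fun w _ =>
    pow_le_pow_left₀ (apply_nonneg _ _) (h w) _

lemma w_nat (w : InfinitePlace K) (m : ℕ) : w (((m : 𝓞 K) : K)) = m := by
  have h1 : ((m : 𝓞 K) : K) = (m : K) := map_natCast (algebraMap (𝓞 K) K) m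
  rw [h1, InfinitePlace.map_natCast]

lemma nm_nat (m : ℕ) : nm (m : 𝓞 K) = (m : ℝ) ^ Module.finrank ℚ K := by
  unfold nm
  rw [← InfinitePlace.sum_mult_eq, ← Finset.prod_pow_eq_pow_sum]
  exact Finset.prod_congr rfl fun w _ => by rw [w_nat]

lemma w_mul (w : InfinitePlace K) (a b : 𝓞 K) :
    w ((a * b : 𝓞 K) : K) = w (a : K) * w (b : K) := by
  have h1 : ((a * b : 𝓞 K) : K) = (a : K) * (b : K) := map_mul (algebraMap (𝓞 K) K) a b
  rw [h1, map_mul]

lemma w_pow (w : InfinitePlace K) (a : 𝓞 K) (k : ℕ) :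
    w ((a ^ k : 𝓞 K) : K) = w (a : K) ^ k := by
  have h1 : ((a ^ k : 𝓞 K) : K) = (a : K) ^ k := map_pow (algebraMap (𝓞 K) K) a k
  rw [h1, map_pow]

lemma w_sum_le {ι : Type} (w : InfinitePlace K) (t : Finset ι) (f : ι → 𝓞 K) :
    w ((∑ i ∈ t, f i : 𝓞 K) : K) ≤ ∑ i ∈ t, w (f i : K) := by
  classical
  induction t using Finset.induction_on with
  | empty =>
    simp
  | insert a t ha ih =>
    rw [Finset.sum_insert ha, Finset.sum_insert ha]
    have h1 : ((f a + ∑ i ∈ t, f i : 𝓞 K) : K) = (f a : K) + ((∑ i ∈ t, f i : 𝓞 K) : K) :=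
      map_add (algebraMap (𝓞 K) K) _ _
    rw [h1]
    exact (w.1.add_le _ _).trans (add_le_add le_rfl ih)

/-- the product over the archimedean places of the larger coordinate -/
noncomputable def top (s : Fin 2 → 𝓞 K) : ℝ :=
  ∏ w : InfinitePlace K, (max (w (s 0 : K)) (w (s 1 : K))) ^ w.mult

/-- **a binary form vanishing at `s` has large coefficients** -/
lemma short {q M N : ℕ} (s : Fin 2 → 𝓞 K) (hN : 0 < N) (hNM : N ≤ M)
    (hmem : (N : 𝓞 K) ∈ Ideal.span (Set.range s)) {A : ℝ} (hA : 0 ≤ A)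
    (hAs : A ^ Module.finrank ℚ K ≤ top s) (c : Fin (q + 1) → 𝓞 K) (hc : c ≠ 0)
    (h0 : bin q c s = 0) {l : ℝ} (hl : ∀ (w : InfinitePlace K) i, w (c i : K) ≤ l) :
    A ≤ (q + 1) * (M : ℝ) ^ (q + 1) * l := by
  classical
  set d : ℕ := Module.finrank ℚ K with hd
  have hd1 : 1 ≤ d := Module.finrank_pos (R := ℚ) (M := K)
  have hM1 : (1 : ℝ) ≤ M := by exact_mod_cast (show 1 ≤ M by omega)
  obtain ⟨iz, hiz⟩ := Function.ne_iff.mp hc
  -- the largest nonzero coefficient
  obtain ⟨m, hmf, hmax⟩ := Finset.exists_max_image (Finset.univ.filter fun i : Fin (q + 1) => c i ≠ 0)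
    (fun i => (i : ℕ)) ⟨iz, by
      rw [Finset.mem_filter]
      exact ⟨Finset.mem_univ _, hiz⟩⟩
  rw [Finset.mem_filter] at hmf
  have hcm : c m ≠ 0 := hmf.2
  have hzero : ∀ i : Fin (q + 1), (m : ℕ) < i → c i = 0 := by
    intro i hi
    by_contra h
    have := hmax i (by rw [Finset.mem_filter]; exact ⟨Finset.mem_univ _, h⟩)
    omega
  -- `l ≥ 1`
  have hl1 : 1 ≤ l := by
    have h1 := one_le_nm hcm
    have h2 : nm (c m) ≤ l ^ d := nm_le fun w => hl w m
    by_contra h3
    rw [not_le] at h3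
    have hl0 : 0 ≤ l := by
      obtain ⟨w⟩ : Nonempty (InfinitePlace K) := inferInstance
      exact (apply_nonneg w _).trans (hl w m)
    have h4 : l ^ d < 1 := pow_lt_one₀ hl0 h3 (by omega)
    linarith
  by_cases hs1 : s 1 = 0
  · -- the point at infinity
    have h1 : s 0 ∣ (N : 𝓞 K) := by
      obtain ⟨r, hr⟩ := Ideal.mem_span_range_iff_exists_fun.mp hmem
      rw [Fin.sum_univ_two, hs1, mul_zero, add_zero] at hr
      exact ⟨r 0, by rw [← hr, mul_comm]⟩
    have h2 : top s = nm (s 0) := by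
      unfold top nm
      refine Finset.prod_congr rfl fun w _ => ?_
      have h3 : w ((s 1 : 𝓞 K) : K) = 0 := by
        rw [hs1]
        simp
      rw [h3, max_eq_left (apply_nonneg _ _)]
    have hN0 : (N : 𝓞 K) ≠ 0 := by exact_mod_cast hN.ne'
    have h3 : A ^ d ≤ (M : ℝ) ^ d := by
      refine hAs.trans ?_
      rw [h2]
      refine (nm_le_of_dvd h1 hN0).trans ?_
      rw [nm_nat]
      exact pow_le_pow_left₀ (Nat.cast_nonneg _) (by exact_mod_cast hNM) _
    have h4 : A ≤ M := le_of_pow_le_pow_left₀ (by omega) (by linarith) h3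
    have h5 : (M : ℝ) ≤ (M : ℝ) ^ (q + 1) := le_self_pow₀ hM1 (by omega)
    have h6 : (1 : ℝ) ≤ (q : ℝ) + 1 := by
      have : (0 : ℝ) ≤ q := Nat.cast_nonneg q
      linarith
    calc A ≤ 1 * (M : ℝ) ^ (q + 1) * 1 := by linarith
      _ ≤ _ := by
        apply mul_le_mul _ hl1 zero_le_one (by positivity)
        exact mul_le_mul_of_nonneg_right h6 (by positivity)
  · -- the reduced equation
    set E : 𝓞 K := ∑ i : Fin (q + 1), c i * (s 0 ^ (i : ℕ) * s 1 ^ ((m : ℕ) - (i : ℕ))) with hE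
    have hmq : (m : ℕ) ≤ q := by have := m.2; omega
    have hbin : bin q c s = s 1 ^ (q - (m : ℕ)) * E := by
      rw [hE, bin, Finset.mul_sum]
      refine Finset.sum_congr rfl fun i _ => ?_
      by_cases hi : (i : ℕ) ≤ m
      · have h1 : q - (i : ℕ) = (q - (m : ℕ)) + ((m : ℕ) - (i : ℕ)) := by omega
        rw [h1, pow_add]
        ring
      · rw [hzero i (by omega)]
        ring
    have hE0 : E = 0 := by
      rw [h0] at hbin
      exact (mul_eq_zero.1 hbin.symm).resolve_left (pow_ne_zero _ hs1)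
    have hsplit : c m * s 0 ^ (m : ℕ) = -∑ i ∈ Finset.univ.erase m,
        c i * (s 0 ^ (i : ℕ) * s 1 ^ ((m : ℕ) - (i : ℕ))) := by
      rw [hE, ← Finset.add_sum_erase _ _ (Finset.mem_univ m), Nat.sub_self, pow_zero, mul_one] at hE0
      exact eq_neg_of_add_eq_zero_left hE0
    -- divisibility
    have hdvd : s 1 ∣ c m * s 0 ^ (m : ℕ) := by
      rw [hsplit, dvd_neg]
      refine Finset.dvd_sum fun i hi => ?_
      have him : (i : ℕ) ≠ m := fun h => (Finset.mem_erase.1 hi).1 (Fin.ext h)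
      by_cases h1 : (i : ℕ) < m
      · have h2 : s 1 ∣ s 1 ^ ((m : ℕ) - (i : ℕ)) := dvd_pow_self _ (by omega)
        exact Dvd.dvd.mul_left (Dvd.dvd.mul_left h2 _) _
      · rw [hzero i (by omega)]
        simp
    have hdvd2 : s 1 ∣ (N : 𝓞 K) ^ (m : ℕ) * c m := by
      have key : ∀ k : ℕ, ∃ u v : 𝓞 K, (N : 𝓞 K) ^ k = u * s 0 ^ k + v * s 1 := by
        obtain ⟨r, hr⟩ := Ideal.mem_span_range_iff_exists_fun.mp hmem
        rw [Fin.sum_univ_two] at hr
        intro k
        induction k with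
        | zero => exact ⟨1, 0, by simp⟩
        | succ k ih =>
          obtain ⟨u, v, huv⟩ := ih
          refine ⟨u * r 0, u * s 0 ^ k * r 1 + v * (N : 𝓞 K), ?_⟩
          rw [pow_succ, huv, ← hr]
          ring
      obtain ⟨u, v, huv⟩ := key m
      rw [huv]
      have h1 : (u * s 0 ^ (m : ℕ) + v * s 1) * c m = u * (c m * s 0 ^ (m : ℕ)) + v * c m * s 1 := by
        ring
      rw [h1]
      exact dvd_add (Dvd.dvd.mul_left hdvd _) (Dvd.intro_left _ rfl)
    have hne : (N : 𝓞 K) ^ (m : ℕ) * c m ≠ 0 := mul_ne_zero (pow_ne_zero _ (by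
      exact_mod_cast hN.ne')) hcm
    have hnm : nm (s 1) ≤ ((M : ℝ) ^ q) ^ d * nm (c m) := by
      refine (nm_le_of_dvd hdvd2 hne).trans ?_
      rw [nm_mul]
      refine mul_le_mul_of_nonneg_right ?_ (nm_nonneg _)
      refine nm_le fun w => ?_
      rw [w_pow, w_nat]
      calc (N : ℝ) ^ (m : ℕ) ≤ (M : ℝ) ^ (m : ℕ) :=
            pow_le_pow_left₀ (Nat.cast_nonneg _) (by exact_mod_cast hNM) _
        _ ≤ (M : ℝ) ^ q := pow_le_pow_right₀ hM1 hmq
    -- sizes
    have hq0 : (0 : ℝ) ≤ q := Nat.cast_nonneg q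
    have hsize : ∀ w : InfinitePlace K, w (c m : K) * max (w (s 0 : K)) (w (s 1 : K)) ≤
        ((q + 1) * l) * w (s 1 : K) := by
      intro w
      have hs1n : 0 ≤ w (s 1 : K) := apply_nonneg _ _
      have hs0n : 0 ≤ w (s 0 : K) := apply_nonneg _ _
      have hcn : 0 ≤ w (c m : K) := apply_nonneg _ _
      rcases le_total (w (s 0 : K)) (w (s 1 : K)) with h | h
      · rw [max_eq_right h]
        refine mul_le_mul_of_nonneg_right ?_ hs1n
        have h1 := hl w m
        nlinarith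
      · rw [max_eq_left h]
        rcases hs0n.eq_or_lt with hz | hpos
        · rw [← hz, mul_zero]
          positivity
        · have hm0 : (m : ℕ) ≠ 0 := by
            intro hm0
            rw [hm0, pow_zero, mul_one] at hsplit
            apply hcm
            rw [hsplit, neg_eq_zero]
            refine Finset.sum_eq_zero fun i hi => ?_
            have him : (i : ℕ) ≠ m := fun h => (Finset.mem_erase.1 hi).1 (Fin.ext h)
            rw [hzero i (by omega), zero_mul]
          have h1 : w (c m : K) * w (s 0 : K) ^ (m : ℕ) ≤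
              ∑ i ∈ Finset.univ.erase m, l * (w (s 0 : K) ^ ((m : ℕ) - 1) * w (s 1 : K)) := by
            have h2 : w ((c m * s 0 ^ (m : ℕ) : 𝓞 K) : K) ≤ ∑ i ∈ Finset.univ.erase m,
                w ((c i * (s 0 ^ (i : ℕ) * s 1 ^ ((m : ℕ) - (i : ℕ))) : 𝓞 K) : K) := by
              rw [hsplit]
              have h3 : ((-∑ i ∈ Finset.univ.erase m,
                  c i * (s 0 ^ (i : ℕ) * s 1 ^ ((m : ℕ) - (i : ℕ))) : 𝓞 K) : K) =
                  -((∑ i ∈ Finset.univ.erase m,
                  c i * (s 0 ^ (i : ℕ) * s 1 ^ ((m : ℕ) - (i : ℕ))) : 𝓞 K) : K) :=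
                map_neg (algebraMap (𝓞 K) K) _
              rw [h3, show ∀ x : K, w (-x) = w x from fun x => w.1.map_neg x]
              exact w_sum_le w _ _
            rw [w_mul, w_pow] at h2
            refine h2.trans (Finset.sum_le_sum fun i hi => ?_)
            rw [w_mul, w_mul, w_pow, w_pow]
            have him : (i : ℕ) ≠ m := fun h => (Finset.mem_erase.1 hi).1 (Fin.ext h)
            by_cases hi2 : (i : ℕ) < m
            · refine mul_le_mul (hl w i) ?_ (by positivity) (by linarith)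
              have h3 : (m : ℕ) - (i : ℕ) = ((m : ℕ) - (i : ℕ) - 1) + 1 := by omega
              have h4 : (m : ℕ) - 1 = (i : ℕ) + ((m : ℕ) - (i : ℕ) - 1) := by omega
              rw [h3, pow_succ, h4, pow_add]
              have h5 : w (s 1 : K) ^ ((m : ℕ) - (i : ℕ) - 1) ≤ w (s 0 : K) ^ ((m : ℕ) - (i : ℕ) - 1) :=
                pow_le_pow_left₀ hs1n h _
              have h6 : 0 ≤ w (s 0 : K) ^ (i : ℕ) * w (s 1 : K) := by positivity
              nlinarith [mul_le_mul_of_nonneg_left h5 h6]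
            · rw [hzero i (by omega)]
              simp only [map_zero, zero_mul]
              positivity
          rw [Finset.sum_const, Finset.card_erase_of_mem (Finset.mem_univ m), Finset.card_univ,
            Fintype.card_fin, nsmul_eq_mul, Nat.add_sub_cancel] at h1
          have h2 : w (s 0 : K) ^ (m : ℕ) = w (s 0 : K) ^ ((m : ℕ) - 1) * w (s 0 : K) := by
            rw [← pow_succ]
            congr 1
            omega
          rw [h2] at h1
          have hp : 0 < w (s 0 : K) ^ ((m : ℕ) - 1) := by positivity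
          have h3 : w (s 0 : K) ^ ((m : ℕ) - 1) * (w (c m : K) * w (s 0 : K)) ≤
              w (s 0 : K) ^ ((m : ℕ) - 1) * ((q * l) * w (s 1 : K)) := by nlinarith
          have h4 := le_of_mul_le_mul_left h3 hp
          refine h4.trans (mul_le_mul_of_nonneg_right ?_ hs1n)
          nlinarith
    -- the product
    have hprod : nm (c m) * top s ≤ ((q + 1) * l) ^ d * nm (s 1) := by
      unfold nm top
      rw [← Finset.prod_mul_distrib, hd, ← InfinitePlace.sum_mult_eq, ← Finset.prod_pow_eq_pow_sum,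
        ← Finset.prod_mul_distrib]
      refine Finset.prod_le_prod (fun w _ => by positivity) fun w _ => ?_
      rw [← mul_pow, ← mul_pow]
      exact pow_le_pow_left₀ (by positivity) (hsize w) _
    have hcm1 := one_le_nm hcm
    have h1 : nm (c m) * A ^ d ≤ nm (c m) * (((q + 1) * (M : ℝ) ^ q * l) ^ d) := by
      calc nm (c m) * A ^ d ≤ nm (c m) * top s := mul_le_mul_of_nonneg_left hAs (nm_nonneg _)
        _ ≤ ((q + 1) * l) ^ d * nm (s 1) := hprod
        _ ≤ ((q + 1) * l) ^ d * (((M : ℝ) ^ q) ^ d * nm (c m)) :=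
            mul_le_mul_of_nonneg_left hnm (by positivity)
        _ = _ := by rw [mul_pow, mul_pow, mul_pow]; ring
    have h2 : A ^ d ≤ ((q + 1) * (M : ℝ) ^ q * l) ^ d := le_of_mul_le_mul_left h1 (by linarith)
    have h3 : A ≤ (q + 1) * (M : ℝ) ^ q * l :=
      le_of_pow_le_pow_left₀ (by omega) (by positivity) h2
    refine h3.trans (mul_le_mul_of_nonneg_right ?_ (by linarith))
    exact mul_le_mul_of_nonneg_left (pow_le_pow_right₀ hM1 (by omega)) (by positivity)

end Pool.Agent.R366.RD
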