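import Mathlib
import Pool.Agent.R366.RD.Short

set_option autoImplicit false

/-!
# The number of forms with bounded coefficients and given value at a point
-/

namespace Pool.Agent.R366.RD

open NumberField

open scoped Classical

variable {K : Type} [Field K] [NumberField K]

/-- the cell of an element at an infinite place -/
noncomputable def cell (r : ℝ) (w : InfinitePlace K) (x : K) : ℤ × ℤ :=
  (⌊(w.embedding x).re * r⌋, ⌊(w.embedding x).im * r⌋)

lemma cell_close {r : ℝ} (hr : 0 < r) (w : InfinitePlace K) {x y : K} (h : cell r w x = cell r w y) :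
    w (x - y) < 2 / r := by
  unfold cell at h
  rw [Prod.mk.injEq] at h
  obtain ⟨h1, h2⟩ := h
  have e1 := Int.abs_sub_lt_one_of_floor_eq_floor h1
  have e2 := Int.abs_sub_lt_one_of_floor_eq_floor h2
  rw [← sub_mul, abs_mul, abs_of_pos hr, ← lt_div_iff₀ hr] at e1 e2
  have h3 : w (x - y) = ‖w.embedding x - w.embedding y‖ := by
    rw [← InfinitePlace.norm_embedding_eq, map_sub]
  rw [h3]
  refine (Complex.norm_le_abs_re_add_abs_im _).trans_lt ?_
  rw [Complex.sub_re, Complex.sub_im]
  have h4 : (2 : ℝ) / r = 1 / r + 1 / r := by ring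
  rw [h4]
  exact add_lt_add e1 e2

/-- the cells which occur -/
noncomputable def cells (W : ℕ) (w : InfinitePlace K) : Finset (ℤ × ℤ) :=
  if w.IsReal then Finset.Icc (-(W : ℤ)) W ×ˢ {0} else
    Finset.Icc (-(W : ℤ)) W ×ˢ Finset.Icc (-(W : ℤ)) W

lemma card_cells (W : ℕ) (w : InfinitePlace K) : (cells W w).card = (2 * W + 1) ^ w.mult := by
  have h1 : (Finset.Icc (-(W : ℤ)) W).card = 2 * W + 1 := by
    rw [Int.card_Icc]
    omega
  unfold cells InfinitePlace.mult
  by_cases h : w.IsReal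
  · rw [if_pos h, if_pos h, Finset.card_product, h1, Finset.card_singleton, mul_one, pow_one]
  · rw [if_neg h, if_neg h, Finset.card_product, h1, sq]

lemma floor_mem {x Y : ℝ} (h : |x| ≤ Y) : ⌊x⌋ ∈ Finset.Icc (-((⌈Y⌉₊ : ℕ) : ℤ)) (⌈Y⌉₊ : ℕ) := by
  have h0 := abs_le.1 h
  have h1 := Nat.le_ceil Y
  rw [Finset.mem_Icc]
  constructor
  · rw [Int.le_floor]
    push_cast
    linarith [h0.1]
  · have h2 : (⌊x⌋ : ℝ) ≤ ((⌈Y⌉₊ : ℕ) : ℤ) := by
      push_cast
      linarith [Int.floor_le x, h0.2]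
    exact_mod_cast h2

lemma cell_mem {r H : ℝ} (hr : 0 < r) (w : InfinitePlace K) {x : K} (h : w x ≤ H) :
    cell r w x ∈ cells ⌈H * r⌉₊ w := by
  have h1 : ‖w.embedding x‖ ≤ H := by
    rw [InfinitePlace.norm_embedding_eq]
    exact h
  have h2 : |(w.embedding x).re * r| ≤ H * r := by
    rw [abs_mul, abs_of_pos hr]
    exact mul_le_mul_of_nonneg_right ((Complex.abs_re_le_norm _).trans h1) hr.le
  have h3 : |(w.embedding x).im * r| ≤ H * r := by
    rw [abs_mul, abs_of_pos hr]
    exact mul_le_mul_of_nonneg_right ((Complex.abs_im_le_norm _).trans h1) hr.le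
  unfold cell cells
  by_cases hw : w.IsReal
  · rw [if_pos hw, Finset.mem_product, Finset.mem_singleton]
    refine ⟨floor_mem h2, ?_⟩
    have h4 := InfinitePlace.isReal_iff.1 hw
    have h5 : (w.embedding x).im = 0 := by
      rw [← ComplexEmbedding.IsReal.coe_embedding_apply h4 x]
      exact Complex.ofReal_im _
    simp only [h5, zero_mul, Int.floor_zero]
  · rw [if_neg hw, Finset.mem_product]
    exact ⟨floor_mem h2, floor_mem h3⟩

/-- **the number of binary forms with bounded coefficients and given value at a point** -/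
lemma count_bin {q M N : ℕ} (s : Fin 2 → 𝓞 K) (hN : 0 < N) (hNM : N ≤ M)
    (hmem : (N : 𝓞 K) ∈ Ideal.span (Set.range s)) {A : ℝ} (hA : 0 < A)
    (hAs : A ^ Module.finrank ℚ K ≤ top s) {H : ℝ} (hAH : A ≤ H) (g : 𝓞 K)
    (T : Finset (Fin (q + 1) → 𝓞 K))
    (hT : ∀ c ∈ T, bin q c s = g ∧ ∀ (w : InfinitePlace K) i, w (c i : K) ≤ H) :
    (T.card : ℝ) ≤ (12 * (q + 1) ^ 2 * (M : ℝ) ^ (q + 1) * (H / A)) ^ (q * Module.finrank ℚ K) := by
  set d : ℕ := Module.finrank ℚ K with hd
  have hM1 : (1 : ℝ) ≤ M := by exact_mod_cast (show 1 ≤ M by omega)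
  have hMq : (1 : ℝ) ≤ (M : ℝ) ^ (q + 1) := one_le_pow₀ hM1
  have hq1 : (1 : ℝ) ≤ (q : ℝ) + 1 := by
    have : (0 : ℝ) ≤ q := Nat.cast_nonneg q
    linarith
  have hq2 : (1 : ℝ) ≤ ((q : ℝ) + 1) ^ 2 := one_le_pow₀ hq1
  set κ : ℝ := 2 * (q + 1) ^ 2 * (M : ℝ) ^ (q + 1) with hκ
  have hκ2 : 2 ≤ κ := by
    rw [hκ]
    nlinarith [mul_le_mul hq2 hMq zero_le_one (by positivity)]
  set μ : ℝ := A / κ with hμ
  have hμ0 : 0 < μ := by positivity
  set r : ℝ := 2 / μ with hr
  have hr0 : 0 < r := by positivity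
  -- the dominant index
  let dom : InfinitePlace K → Fin (q + 1) := fun w =>
    if w (s 1 : K) ≤ w (s 0 : K) then Fin.last q else 0
  have htop : 0 < top s := lt_of_lt_of_le (by positivity) hAs
  have hmax0 : ∀ w : InfinitePlace K, 0 < max (w (s 0 : K)) (w (s 1 : K)) := by
    intro w
    have h0 : 0 ≤ max (w (s 0 : K)) (w (s 1 : K)) := le_max_of_le_left (apply_nonneg _ _)
    rcases h0.eq_or_lt with h | h
    · exfalso
      have h1 : top s = 0 := by
        unfold top
        refine Finset.prod_eq_zero (Finset.mem_univ w) ?_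
        rw [← h, zero_pow]
        exact InfinitePlace.mult_pos.ne'
      linarith
    · exact h
  have hwt : ∀ (w : InfinitePlace K) (i : Fin (q + 1)),
      w ((s 0 ^ (i : ℕ) * s 1 ^ (q - (i : ℕ)) : 𝓞 K) : K) ≤
        (max (w (s 0 : K)) (w (s 1 : K))) ^ q := by
    intro w i
    rw [w_mul, w_pow, w_pow]
    have h1 : (max (w (s 0 : K)) (w (s 1 : K))) ^ q =
        (max (w (s 0 : K)) (w (s 1 : K))) ^ (i : ℕ) *
          (max (w (s 0 : K)) (w (s 1 : K))) ^ (q - (i : ℕ)) := by
      rw [← pow_add]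
      congr 1
      have := i.2
      omega
    rw [h1]
    exact mul_le_mul (pow_le_pow_left₀ (apply_nonneg _ _) (le_max_left _ _) _)
      (pow_le_pow_left₀ (apply_nonneg _ _) (le_max_right _ _) _) (by positivity) (by positivity)
  have hdom : ∀ w : InfinitePlace K,
      w ((s 0 ^ (dom w : ℕ) * s 1 ^ (q - (dom w : ℕ)) : 𝓞 K) : K) =
        (max (w (s 0 : K)) (w (s 1 : K))) ^ q := by
    intro w
    rw [w_mul, w_pow, w_pow]
    by_cases h : w (s 1 : K) ≤ w (s 0 : K)
    · have h1 : (dom w : ℕ) = q := by simp [dom, h]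
      rw [h1, Nat.sub_self, pow_zero, mul_one, max_eq_left h]
    · have h1 : (dom w : ℕ) = 0 := by simp [dom, h]
      rw [h1, Nat.sub_zero, pow_zero, one_mul, max_eq_right (not_le.1 h).le]
  let Φ : (Fin (q + 1) → 𝓞 K) → (InfinitePlace K → Fin q → ℤ × ℤ) := fun c w k =>
    cell r w (c ((dom w).succAbove k) : K)
  have hinj : Set.InjOn Φ (T : Set (Fin (q + 1) → 𝓞 K)) := by
    intro c hc c' hc' hcc
    by_contra hne
    have hΔ : (fun i => c i - c' i) ≠ 0 := by
      intro h
      apply hne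
      funext i
      exact sub_eq_zero.1 (congrFun h i)
    have h1 : bin q (fun i => c i - c' i) s = 0 := by
      have e1 := (hT c hc).1
      have e2 := (hT c' hc').1
      have e3 : bin q (fun i => c i - c' i) s = bin q c s - bin q c' s := by
        unfold bin
        rw [← Finset.sum_sub_distrib]
        exact Finset.sum_congr rfl fun i _ => by ring
      rw [e3, e1, e2, sub_self]
    have h2 : ∀ (w : InfinitePlace K) (i : Fin (q + 1)), i ≠ dom w →
        w ((c i - c' i : 𝓞 K) : K) ≤ μ := by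
      intro w i hi
      obtain ⟨k, rfl⟩ := Fin.exists_succAbove_eq hi
      have e1 := congrFun (congrFun hcc w) k
      have e2 := cell_close hr0 w e1
      have e3 : 2 / r = μ := by rw [hr]; field_simp
      rw [e3] at e2
      have e4 : ((c ((dom w).succAbove k) - c' ((dom w).succAbove k) : 𝓞 K) : K) =
          (c ((dom w).succAbove k) : K) - (c' ((dom w).succAbove k) : K) :=
        map_sub (algebraMap (𝓞 K) K) _ _
      rw [e4]
      exact e2.le
    have h3 : ∀ w : InfinitePlace K, w ((c (dom w) - c' (dom w) : 𝓞 K) : K) ≤ q * μ := by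
      intro w
      have e1 : (c (dom w) - c' (dom w)) * (s 0 ^ (dom w : ℕ) * s 1 ^ (q - (dom w : ℕ))) =
          -∑ i ∈ Finset.univ.erase (dom w),
            (c i - c' i) * (s 0 ^ (i : ℕ) * s 1 ^ (q - (i : ℕ))) := by
        unfold bin at h1
        rw [← Finset.add_sum_erase _ _ (Finset.mem_univ (dom w))] at h1
        exact eq_neg_of_add_eq_zero_left h1
      have e2 : w ((c (dom w) - c' (dom w) : 𝓞 K) : K) * (max (w (s 0 : K)) (w (s 1 : K))) ^ q ≤
          ∑ i ∈ Finset.univ.erase (dom w), μ * (max (w (s 0 : K)) (w (s 1 : K))) ^ q := by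
        rw [← hdom w, ← w_mul, e1]
        have e3 : ((-∑ i ∈ Finset.univ.erase (dom w),
            (c i - c' i) * (s 0 ^ (i : ℕ) * s 1 ^ (q - (i : ℕ))) : 𝓞 K) : K) =
            -((∑ i ∈ Finset.univ.erase (dom w),
            (c i - c' i) * (s 0 ^ (i : ℕ) * s 1 ^ (q - (i : ℕ))) : 𝓞 K) : K) :=
          map_neg (algebraMap (𝓞 K) K) _
        rw [e3, show ∀ x : K, w (-x) = w x from fun x => w.1.map_neg x]
        refine (w_sum_le w _ _).trans (Finset.sum_le_sum fun i hi => ?_)
        rw [w_mul (a := c i - c' i), hdom w]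
        exact mul_le_mul (h2 w i (Finset.mem_erase.1 hi).1) (hwt w i) (apply_nonneg _ _) hμ0.le
      rw [Finset.sum_const, Finset.card_erase_of_mem (Finset.mem_univ _), Finset.card_univ,
        Fintype.card_fin, nsmul_eq_mul, Nat.add_sub_cancel, ← mul_assoc] at e2
      exact le_of_mul_le_mul_right e2 (pow_pos (hmax0 w) q)
    have h4 : ∀ (w : InfinitePlace K) (i : Fin (q + 1)),
        w (((fun i => c i - c' i) i : 𝓞 K) : K) ≤ (q + 1) * μ := by
      intro w i
      by_cases hi : i = dom w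
      · rw [hi]
        have := h3 w
        change w ((c (dom w) - c' (dom w) : 𝓞 K) : K) ≤ _
        nlinarith
      · have := h2 w i hi
        change w ((c i - c' i : 𝓞 K) : K) ≤ _
        nlinarith
    have h5 := short s hN hNM hmem hA.le hAs _ hΔ h1 h4
    have h6 : ((q : ℝ) + 1) * (M : ℝ) ^ (q + 1) * ((q + 1) * μ) = A / 2 := by
      rw [hμ, hκ]
      field_simp
    rw [h6] at h5
    linarith
  set W : ℕ := ⌈H * r⌉₊ with hW
  have hcard : T.card ≤ (Fintype.piFinset fun w : InfinitePlace K =>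
      Fintype.piFinset fun _ : Fin q => cells W w).card := by
    refine Finset.card_le_card_of_injOn Φ ?_ hinj
    intro c hc
    rw [Finset.mem_coe, Fintype.mem_piFinset]
    intro w
    rw [Fintype.mem_piFinset]
    intro k
    exact cell_mem hr0 w ((hT c hc).2 w _)
  have hcard2 : (Fintype.piFinset fun w : InfinitePlace K =>
      Fintype.piFinset fun _ : Fin q => cells W w).card = (2 * W + 1) ^ (q * d) := by
    rw [Fintype.card_piFinset]
    simp only [Fintype.card_piFinset, card_cells, Finset.prod_const, Finset.card_univ,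
      Fintype.card_fin]
    rw [hd, ← InfinitePlace.sum_mult_eq, mul_comm q, pow_mul, ← Finset.prod_pow_eq_pow_sum,
      Finset.prod_pow]
  rw [hcard2] at hcard
  have h1 : (T.card : ℝ) ≤ (2 * (W : ℝ) + 1) ^ (q * d) := by exact_mod_cast hcard
  refine h1.trans (pow_le_pow_left₀ (by positivity) ?_ _)
  have hH0 : 0 < H := hA.trans_le hAH
  have h2 : (W : ℝ) ≤ H * r + 1 := (Nat.ceil_lt_add_one (by positivity)).le
  have h3 : H * r = 2 * κ * (H / A) := by
    rw [hr, hμ]
    field_simp
  have h4 : 1 ≤ H / A := by rw [le_div_iff₀ hA]; linarith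
  have h5 : 12 * ((q : ℝ) + 1) ^ 2 * (M : ℝ) ^ (q + 1) * (H / A) = 6 * κ * (H / A) := by
    rw [hκ]
    ring
  rw [h5]
  nlinarith

end Pool.Agent.R366.RD
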