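import Mathlib
import Pool.Agent.R366.RD.Count

set_option autoImplicit false

/-!
# The number of bihomogeneous forms with bounded coefficients and given value at a pair of points
-/

namespace Pool.Agent.R366.RD

open NumberField

open scoped Classical

variable {K : Type} [Field K] [NumberField K]

/-- the value of the form of bidegree `(a, b)` with the coefficients `c` -/
def val2 {R : Type} [CommRing R] (a b : ℕ) (c : Fin (b + 1) → Fin (a + 1) → R) (s t : Fin 2 → R) : R :=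
  bin b (fun k => bin a (c k) s) t

lemma val2_swap {R : Type} [CommRing R] (a b : ℕ) (c : Fin (b + 1) → Fin (a + 1) → R)
    (s t : Fin 2 → R) : val2 a b c s t = val2 b a (fun i k => c k i) t s := by
  unfold val2 bin
  simp only [Finset.sum_mul]
  rw [Finset.sum_comm]
  refine Finset.sum_congr rfl fun i _ => Finset.sum_congr rfl fun k _ => ?_
  ring

lemma bin_le {q : ℕ} {s : Fin 2 → 𝓞 K} {c : Fin (q + 1) → 𝓞 K} {w : InfinitePlace K} {H X : ℝ}
    (hc : ∀ i, w (c i : K) ≤ H) (hs : ∀ i, w (s i : K) ≤ X) :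
    w ((bin q c s : 𝓞 K) : K) ≤ (q + 1) * (H * X ^ q) := by
  have hH : 0 ≤ H := (apply_nonneg w _).trans (hc 0)
  have hX : 0 ≤ X := (apply_nonneg w _).trans (hs 0)
  unfold bin
  refine (w_sum_le w _ _).trans ?_
  have h1 : ∀ i ∈ (Finset.univ : Finset (Fin (q + 1))),
      w ((c i * (s 0 ^ (i : ℕ) * s 1 ^ (q - (i : ℕ))) : 𝓞 K) : K) ≤ H * X ^ q := by
    intro i _
    rw [w_mul, w_mul, w_pow, w_pow]
    refine mul_le_mul (hc i) ?_ (by positivity) hH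
    have h2 : X ^ q = X ^ (i : ℕ) * X ^ (q - (i : ℕ)) := by
      rw [← pow_add]
      congr 1
      have := i.2
      omega
    rw [h2]
    exact mul_le_mul (pow_le_pow_left₀ (apply_nonneg _ _) (hs 0) _)
      (pow_le_pow_left₀ (apply_nonneg _ _) (hs 1) _) (by positivity) (by positivity)
  refine (Finset.sum_le_sum h1).trans (le_of_eq ?_)
  rw [Finset.sum_const, Finset.card_univ, Fintype.card_fin, nsmul_eq_mul]
  push_cast
  ring

lemma val2_le {a b : ℕ} {s t : Fin 2 → 𝓞 K} {c : Fin (b + 1) → Fin (a + 1) → 𝓞 K}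
    {w : InfinitePlace K} {H X Y : ℝ} (hc : ∀ k i, w (c k i : K) ≤ H) (hs : ∀ i, w (s i : K) ≤ X)
    (ht : ∀ i, w (t i : K) ≤ Y) :
    w ((val2 a b c s t : 𝓞 K) : K) ≤ (b + 1) * ((a + 1) * (H * X ^ a) * Y ^ b) :=
  bin_le (fun k => bin_le (hc k) hs) ht

/-- the number of elements of a finite set of families, in terms of the components -/
lemma card_le_prod {ι : Type} [Fintype ι] {α : ι → Type} [∀ i, DecidableEq (α i)] (T : Finset (∀ i, α i)) (f : ι → ℝ)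
    (h : ∀ i, ((T.image fun c => c i).card : ℝ) ≤ f i) : (T.card : ℝ) ≤ ∏ i, f i := by
  have h1 : T ⊆ Fintype.piFinset fun i => T.image fun c => c i := by
    intro c hc
    rw [Fintype.mem_piFinset]
    intro i
    exact Finset.mem_image_of_mem _ hc
  have h2 := Finset.card_le_card h1
  rw [Fintype.card_piFinset] at h2
  have h3 : (T.card : ℝ) ≤ ∏ i, ((T.image fun c => c i).card : ℝ) := by exact_mod_cast h2
  exact h3.trans (Finset.prod_le_prod (fun i _ => Nat.cast_nonneg _) fun i _ => h i)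

/-- one half of the region -/
lemma count_half (a b M : ℕ) {C0 : ℝ} (hC0 : 1 ≤ C0) (s t : Fin 2 → 𝓞 K) {N₁ N₂ : ℕ}
    (hN₁ : 0 < N₁) (hNM₁ : N₁ ≤ M) (hmem₁ : (N₁ : 𝓞 K) ∈ Ideal.span (Set.range s))
    (hN₂ : 0 < N₂) (hNM₂ : N₂ ≤ M) (hmem₂ : (N₂ : 𝓞 K) ∈ Ideal.span (Set.range t))
    {A B : ℝ} (hA : 1 ≤ A) (hB : 1 ≤ B) (hAs : A ^ Module.finrank ℚ K ≤ top s)
    (hBt : B ^ Module.finrank ℚ K ≤ top t) (hs : ∀ (w : InfinitePlace K) i, w (s i : K) ≤ C0 * A)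
    {H : ℝ} (hAH : A ≤ H) (hBH : B ≤ H * A ^ a) (g : 𝓞 K)
    (T : Finset (Fin (b + 1) → Fin (a + 1) → 𝓞 K))
    (hT : ∀ c ∈ T, val2 a b c s t = g ∧ ∀ (w : InfinitePlace K) k i, w (c k i : K) ≤ H) :
    (T.card : ℝ) ≤ ((12 * (b + 1) ^ 2 * (M : ℝ) ^ (b + 1) * ((a + 1) * C0 ^ a)) ^
        (b * Module.finrank ℚ K) * (12 * (a + 1) ^ 2 * (M : ℝ) ^ (a + 1)) ^
        (a * Module.finrank ℚ K * (b + 1))) *
      (H ^ ((a + 1) * (b + 1) - 1) / (A ^ a * B ^ b)) ^ Module.finrank ℚ K := by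
  set d : ℕ := Module.finrank ℚ K with hd
  have hA0 : 0 < A := by linarith
  have hB0 : 0 < B := by linarith
  have hH0 : 0 < H := by linarith
  set H' : ℝ := (a + 1) * (H * (C0 * A) ^ a) with hH'
  have hC0a : 1 ≤ C0 ^ a := one_le_pow₀ hC0
  have ha1 : (1 : ℝ) ≤ (a : ℝ) + 1 := by
    have : (0 : ℝ) ≤ a := Nat.cast_nonneg a
    linarith
  have hBH' : B ≤ H' := by
    refine hBH.trans ?_
    rw [hH', mul_pow]
    have h1 : 1 * (H * A ^ a) ≤ ((a + 1) * C0 ^ a) * (H * A ^ a) := by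
      refine mul_le_mul_of_nonneg_right ?_ (by positivity)
      nlinarith
    calc H * A ^ a = 1 * (H * A ^ a) := by ring
      _ ≤ _ := h1
      _ = _ := by ring
  -- the inner values
  let G : (Fin (b + 1) → Fin (a + 1) → 𝓞 K) → (Fin (b + 1) → 𝓞 K) := fun c k => bin a (c k) s
  have himg : ((T.image G).card : ℝ) ≤
      (12 * (b + 1) ^ 2 * (M : ℝ) ^ (b + 1) * (H' / B)) ^ (b * d) := by
    refine count_bin t hN₂ hNM₂ hmem₂ hB0 hBt hBH' g (T.image G) ?_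
    intro e he
    obtain ⟨c, hc, rfl⟩ := Finset.mem_image.1 he
    obtain ⟨h1, h2⟩ := hT c hc
    exact ⟨h1, fun w k => bin_le (h2 w k) (hs w)⟩
  have hfib : ∀ e ∈ T.image G, ((T.filter fun c => G c = e).card : ℝ) ≤
      ((12 * (a + 1) ^ 2 * (M : ℝ) ^ (a + 1) * (H / A)) ^ (a * d)) ^ (b + 1) := by
    intro e _
    have h1 := card_le_prod (T.filter fun c => G c = e)
      (fun _ => (12 * ((a : ℝ) + 1) ^ 2 * (M : ℝ) ^ (a + 1) * (H / A)) ^ (a * d)) (by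
      intro k
      refine count_bin s hN₁ hNM₁ hmem₁ hA0 hAs hAH (e k) _ ?_
      intro x hx
      obtain ⟨c, hc, rfl⟩ := Finset.mem_image.1 hx
      rw [Finset.mem_filter] at hc
      exact ⟨congrFun hc.2 k, fun w i => (hT c hc.1).2 w k i⟩)
    rw [Finset.prod_const, Finset.card_univ, Fintype.card_fin] at h1
    exact h1
  have hcard : (T.card : ℝ) ≤ ((12 * (a + 1) ^ 2 * (M : ℝ) ^ (a + 1) * (H / A)) ^ (a * d)) ^ (b + 1) *
      (T.image G).card := by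
    have hsum : T.card = ∑ e ∈ T.image G, (T.filter fun c => G c = e).card := by
      convert Finset.card_eq_sum_card_image G T using 3
    rw [hsum]
    push_cast
    calc ∑ e ∈ T.image G, ((T.filter fun c => G c = e).card : ℝ)
        ≤ ∑ e ∈ T.image G, ((12 * ((a : ℝ) + 1) ^ 2 * (M : ℝ) ^ (a + 1) * (H / A)) ^ (a * d)) ^ (b + 1) :=
          Finset.sum_le_sum hfib
      _ = _ := by
        rw [Finset.sum_const, nsmul_eq_mul]
        ring
  have hk : (0 : ℝ) ≤ ((12 * (a + 1) ^ 2 * (M : ℝ) ^ (a + 1) * (H / A)) ^ (a * d)) ^ (b + 1) := by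
    positivity
  refine (hcard.trans (mul_le_mul_of_nonneg_left himg hk)).trans (le_of_eq ?_)
  have e1 : H' / B = ((a + 1) * C0 ^ a) * (H * A ^ a / B) := by
    rw [hH', mul_pow]
    ring
  rw [e1]
  have e2 : 12 * ((b : ℝ) + 1) ^ 2 * (M : ℝ) ^ (b + 1) * (((a : ℝ) + 1) * C0 ^ a * (H * A ^ a / B)) =
      (12 * ((b : ℝ) + 1) ^ 2 * (M : ℝ) ^ (b + 1) * (((a : ℝ) + 1) * C0 ^ a)) * (H * A ^ a / B) := by
    ring
  rw [e2, mul_pow _ (H * A ^ a / B), mul_pow _ (H / A), mul_pow (_ ^ (a * d)), ← pow_mul _ (a * d) (b + 1),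
    ← pow_mul (H / A)]
  have e3 : (H / A) ^ (a * d * (b + 1)) * (H * A ^ a / B) ^ (b * d) =
      (H ^ ((a + 1) * (b + 1) - 1) / (A ^ a * B ^ b)) ^ d := by
    have e4 : a * d * (b + 1) = (a * (b + 1)) * d := by ring
    rw [e4, pow_mul (H / A) (a * (b + 1)) d, pow_mul (H * A ^ a / B) b d, ← mul_pow]
    congr 1
    have e5 : (a + 1) * (b + 1) - 1 = a * (b + 1) + b := by
      have : (a + 1) * (b + 1) = a * (b + 1) + b + 1 := by ring
      omega
    rw [e5, div_pow, div_pow, mul_pow, pow_add, ← pow_mul]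
    have e6 : A ^ (a * (b + 1)) = A ^ (a * b) * A ^ a := by
      rw [← pow_add]
      congr 1
    rw [e6]
    field_simp
  rw [← e3]
  ring

variable (K) in
/-- **the number of forms with bounded coefficients and given value at a pair of points** -/
lemma count_two (a b M : ℕ) {C0 : ℝ} (hC0 : 1 ≤ C0) : ∃ C : ℝ, 0 < C ∧
    ∀ (s t : Fin 2 → 𝓞 K) (N₁ N₂ : ℕ), 0 < N₁ → N₁ ≤ M → (N₁ : 𝓞 K) ∈ Ideal.span (Set.range s) →
    0 < N₂ → N₂ ≤ M → (N₂ : 𝓞 K) ∈ Ideal.span (Set.range t) →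
    ∀ A B : ℝ, 1 ≤ A → 1 ≤ B → A ^ Module.finrank ℚ K ≤ top s → B ^ Module.finrank ℚ K ≤ top t →
    (∀ (w : InfinitePlace K) i, w (s i : K) ≤ C0 * A) →
    (∀ (w : InfinitePlace K) i, w (t i : K) ≤ C0 * B) →
    ∀ H : ℝ, (A ≤ H ∧ B ≤ H * A ^ a) ∨ (B ≤ H ∧ A ≤ H * B ^ b) → ∀ g : 𝓞 K,
    ∀ T : Finset (Fin (b + 1) → Fin (a + 1) → 𝓞 K),
    (∀ c ∈ T, val2 a b c s t = g ∧ ∀ (w : InfinitePlace K) k i, w (c k i : K) ≤ H) →
    (T.card : ℝ) ≤ C * (H ^ ((a + 1) * (b + 1) - 1) / (A ^ a * B ^ b)) ^ Module.finrank ℚ K := by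
  set d : ℕ := Module.finrank ℚ K with hd
  set C₁ : ℝ := (12 * (b + 1) ^ 2 * (M : ℝ) ^ (b + 1) * ((a + 1) * C0 ^ a)) ^
        (b * d) * (12 * (a + 1) ^ 2 * (M : ℝ) ^ (a + 1)) ^ (a * d * (b + 1)) with hC₁
  set C₂ : ℝ := (12 * (a + 1) ^ 2 * (M : ℝ) ^ (a + 1) * ((b + 1) * C0 ^ b)) ^
        (a * d) * (12 * (b + 1) ^ 2 * (M : ℝ) ^ (b + 1)) ^ (b * d * (a + 1)) with hC₂
  have h1 : 0 ≤ C₁ := by positivity
  have h2 : 0 ≤ C₂ := by positivity
  refine ⟨C₁ + C₂ + 1, by positivity, ?_⟩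
  intro s t N₁ N₂ hN₁ hNM₁ hmem₁ hN₂ hNM₂ hmem₂ A B hA hB hAs hBt hs ht H hreg g T hT
  have hH0 : 0 < H := by
    rcases hreg with ⟨h, -⟩ | ⟨h, -⟩ <;> linarith
  have hfac : 0 ≤ (H ^ ((a + 1) * (b + 1) - 1) / (A ^ a * B ^ b)) ^ d := by
    have : 0 < A := by linarith
    have : 0 < B := by linarith
    positivity
  rcases hreg with ⟨h3, h4⟩ | ⟨h3, h4⟩
  · refine (count_half a b M hC0 s t hN₁ hNM₁ hmem₁ hN₂ hNM₂ hmem₂ hA hB hAs hBt hs h3 h4 g T
      hT).trans ?_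
    refine mul_le_mul_of_nonneg_right ?_ hfac
    rw [← hd, ← hC₁]
    linarith
  · have hinj : Function.Injective fun (c : Fin (b + 1) → Fin (a + 1) → 𝓞 K) (i : Fin (a + 1))
        (k : Fin (b + 1)) => c k i := by
      intro c c' h
      funext k i
      exact congrFun (congrFun h i) k
    have h5 := count_half b a M hC0 t s hN₂ hNM₂ hmem₂ hN₁ hNM₁ hmem₁ hB hA hBt hAs ht h3 h4 g
      (T.image fun c i k => c k i) (by
        intro e he
        obtain ⟨c, hc, rfl⟩ := Finset.mem_image.1 he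
        obtain ⟨h6, h7⟩ := hT c hc
        rw [val2_swap] at h6
        exact ⟨h6, fun w k i => h7 w i k⟩)
    rw [Finset.card_image_of_injective _ hinj] at h5
    refine h5.trans ?_
    have h6 : H ^ ((b + 1) * (a + 1) - 1) / (B ^ b * A ^ a) =
        H ^ ((a + 1) * (b + 1) - 1) / (A ^ a * B ^ b) := by
      rw [mul_comm (b + 1) (a + 1), mul_comm (B ^ b)]
    rw [h6]
    refine mul_le_mul_of_nonneg_right ?_ hfac
    rw [← hd, ← hC₂]
    linarith

end Pool.Agent.R366.RD
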