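import Mathlib
import Pool.Agent.R366.RD.Two

set_option autoImplicit false

/-!
# The number of tuples of algebraic integers with small radical
-/

namespace Pool.Agent.R366.RD

open NumberField IsDedekindDomain Pool.Agent.R366.NF Pool.Agent.TH910.Voj Pool.Agent.H813R3.Voj

open scoped Classical LinearAlgebra.Projectivization

variable {K : Type} [Field K] [NumberField K]

/-- **tuples with small radical** -/
lemma count_values (K : Type) [Field K] [NumberField K] (ℓ : ℕ) {δ : ℝ} (hδ : 0 < δ) :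
    ∃ C : ℝ, 0 < C ∧ ∀ X : ℝ, 1 ≤ X →
    ∀ R : ℝ, 0 ≤ R → ∀ V : Finset (Fin ℓ → 𝓞 K), (∀ v ∈ V, (∀ j, v j ≠ 0) ∧
      (∀ (w : InfinitePlace K) j, w (v j : K) ≤ X) ∧
      (rd (Algebra.norm ℤ (∏ j, v j)).natAbs : ℝ) ≤ R) → (V.card : ℝ) ≤ C * R * X ^ δ := by
  set d : ℕ := Module.finrank ℚ K with hd
  have hd1 : 1 ≤ d := Module.finrank_pos (R := ℚ) (M := K)
  set e : ℕ := ℓ * d + 1 with he
  have he0 : (0 : ℝ) < e := by positivity
  set η : ℝ := δ / (e * (ℓ + 1)) with hη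
  have hη0 : 0 < η := by positivity
  obtain ⟨C₁, hC₁, h₁⟩ := card_small_rad hη0
  obtain ⟨C₂, hC₂, h₂⟩ := few_divisors (E := K) hη0
  refine ⟨C₁ * 2 ^ η * C₂ ^ ℓ, by positivity, fun X hX R hR V hV => ?_⟩
  have hX0 : 0 < X := by linarith
  set Y : ℝ := X ^ e with hY
  have hXY : X ≤ Y := le_self_pow₀ hX (by omega)
  have hY1 : 1 ≤ Y := hX.trans hXY
  have hY0 : 0 < Y := by linarith
  set N : ℕ := ⌈Y⌉₊ with hN
  have hN1 : 1 ≤ N := Nat.one_le_ceil_iff.2 hY0
  have hN2 : (N : ℝ) ≤ 2 * Y := by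
    have := (Nat.ceil_lt_add_one hY0.le).le
    linarith
  let Φ : (Fin ℓ → 𝓞 K) → ℤ := fun v => Algebra.norm ℤ (∏ j, v j)
  have hΦ0 : ∀ v ∈ V, Φ v ≠ 0 := fun v hv =>
    Algebra.norm_ne_zero_iff.2 (Finset.prod_ne_zero_iff.2 fun j _ => (hV v hv).1 j)
  have hΦY : ∀ v ∈ V, |((Φ v : ℤ) : ℝ)| ≤ Y := by
    intro v hv
    have h1 : ∀ w : InfinitePlace K, w ((∏ j, v j : 𝓞 K) : K) ≤ X ^ ℓ := by
      intro w
      have h2 : ((∏ j, v j : 𝓞 K) : K) = ∏ j, (v j : K) := map_prod (algebraMap (𝓞 K) K) _ _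
      rw [h2, map_prod]
      calc ∏ j, w (v j : K) ≤ ∏ _j : Fin ℓ, X :=
            Finset.prod_le_prod (fun j _ => apply_nonneg _ _) fun j _ => (hV v hv).2.1 w j
        _ = X ^ ℓ := by rw [Finset.prod_const, Finset.card_univ, Fintype.card_fin]
    have h3 := NF.norm_le _ h1
    refine h3.trans ?_
    rw [← pow_mul, hY]
    exact pow_le_pow_right₀ hX (by rw [he, hd]; exact Nat.le_succ _)
  have himg : ((V.image Φ).card : ℝ) ≤ C₁ * R * (2 * Y) ^ η := by
    have h1 : V.image Φ ⊆ (Finset.Icc (-(N : ℤ)) N).filter fun v => v ≠ 0 ∧ (rd v.natAbs : ℝ) ≤ R := by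
      intro m hm
      obtain ⟨v, hv, rfl⟩ := Finset.mem_image.1 hm
      rw [Finset.mem_filter, Finset.mem_Icc, ← abs_le]
      refine ⟨?_, hΦ0 v hv, (hV v hv).2.2⟩
      have h2 : ((|Φ v| : ℤ) : ℝ) ≤ ((N : ℤ) : ℝ) := by
        push_cast
        exact (hΦY v hv).trans (Nat.le_ceil Y)
      exact_mod_cast h2
    have h2 : ((V.image Φ).card : ℝ) ≤ (((Finset.Icc (-(N : ℤ)) N).filter
        fun v => v ≠ 0 ∧ (rd v.natAbs : ℝ) ≤ R).card : ℝ) := by
      exact_mod_cast Finset.card_le_card h1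
    refine (h2.trans (h₁ N hN1 R hR)).trans ?_
    refine mul_le_mul_of_nonneg_left ?_ (by positivity)
    exact Real.rpow_le_rpow (Nat.cast_nonneg _) hN2 hη0.le
  have hfib : ∀ m ∈ V.image Φ, ((V.filter fun v => Φ v = m).card : ℝ) ≤ (C₂ * Y ^ η) ^ ℓ := by
    intro m hm
    have h1 := card_le_prod (V.filter fun v => Φ v = m) (fun _ => C₂ * Y ^ η) (by
      intro j
      obtain ⟨v0, hv0, hv0m⟩ := Finset.mem_image.1 hm
      refine h₂ Y hY1 m (hv0m ▸ hΦ0 v0 hv0) (hv0m ▸ hΦY v0 hv0) _ ?_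
      intro x hx
      obtain ⟨v, hv, rfl⟩ := Finset.mem_image.1 hx
      rw [Finset.mem_filter] at hv
      refine ⟨?_, fun w => ((hV v hv.1).2.1 w j).trans hXY⟩
      rw [← hv.2]
      exact (Finset.dvd_prod_of_mem v (Finset.mem_univ j)).trans (dvd_norm_int _))
    rw [Finset.prod_const, Finset.card_univ, Fintype.card_fin] at h1
    exact h1
  have hcard : (V.card : ℝ) ≤ (C₂ * Y ^ η) ^ ℓ * (V.image Φ).card := by
    have hsum : V.card = ∑ m ∈ V.image Φ, (V.filter fun v => Φ v = m).card := by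
      convert Finset.card_eq_sum_card_image Φ V using 3
    rw [hsum]
    push_cast
    calc ∑ m ∈ V.image Φ, ((V.filter fun v => Φ v = m).card : ℝ)
        ≤ ∑ m ∈ V.image Φ, (C₂ * Y ^ η) ^ ℓ := Finset.sum_le_sum hfib
      _ = _ := by
        rw [Finset.sum_const, nsmul_eq_mul]
        ring
  refine (hcard.trans (mul_le_mul_of_nonneg_left himg (by positivity))).trans (le_of_eq ?_)
  rw [mul_pow, Real.mul_rpow (by norm_num) hY0.le]
  have h1 : (Y ^ η) ^ ℓ * Y ^ η = X ^ δ := by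
    rw [← pow_succ, ← Real.rpow_natCast (Y ^ η), ← Real.rpow_mul hY0.le, hY, ← Real.rpow_natCast X,
      ← Real.rpow_mul hX0.le]
    congr 1
    rw [hη]
    push_cast
    field_simp
  rw [← h1]
  ring

/-- the radical is bounded by the truncated counting function -/
lemma rd_le_trunc {ℓ : ℕ} (v : Fin ℓ → 𝓞 K) (hv : ∀ j, v j ≠ 0) :
    Real.log (rd (Algebra.norm ℤ (∏ j, v j)).natAbs) ≤ truncI ∅ v := by
  have h0 : ∏ j, v j ≠ 0 := Finset.prod_ne_zero_iff.2 fun j _ => hv j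
  have h1 := trunc_lower (K := K) (q := 1) ∅ (by simp) (fun _ => ∏ j, v j) (fun _ => h0)
    (fun _ _ => 1) (by simp) (by
      intro i j hij
      exact absurd (Subsingleton.elim i j) hij)
  have h2 : (Finset.univ.erase 0 : Finset (Fin 1)) = ∅ := by
    ext i
    simp [Subsingleton.elim i 0]
  rw [Fin.sum_univ_one, h2, Finset.sum_empty, Finset.sum_empty, sub_zero, mul_zero, sub_zero] at h1
  refine h1.trans (le_of_eq ?_)
  unfold truncI
  refine finsum_congr fun p => ?_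
  have h3 : (∃ _j : Fin 1, ∏ j, v j ∈ p.asIdeal) ↔ ∃ j, v j ∈ p.asIdeal := by
    constructor
    · rintro ⟨-, h⟩
      obtain ⟨j, -, hj⟩ := (Ideal.IsPrime.prod_mem_iff (hp := p.isPrime)).1 h
      exact ⟨j, hj⟩
    · rintro ⟨j, hj⟩
      exact ⟨0, (Ideal.IsPrime.prod_mem_iff (hp := p.isPrime)).2 ⟨j, Finset.mem_univ _, hj⟩⟩
  simp only [h3]

open Height in
/-- the product of the archimedean sizes of integral coordinates is at least the height -/
lemma height_le_top (s : Fin 2 → 𝓞 K) (hs : s ≠ 0) :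
    mulHeight (fun i => (s i : K)) ≤ top s := by
  have h0 : (fun i => (s i : K)) ≠ 0 := by
    intro h
    apply hs
    funext i
    exact RingOfIntegers.coe_injective (by simpa using congrFun h i)
  rw [NumberField.mulHeight_eq h0]
  have h1 : ∏ᶠ v : FinitePlace K, ⨆ i, v (s i : K) ≤ 1 := by
    have h2 : ∀ v : FinitePlace K, (⨆ i, v (s i : K)) ≤ 1 := fun v => ciSup_le fun i => by
      obtain ⟨u, rfl⟩ := (FinitePlace.equivHeightOneSpectrum (K := K)).symm.surjective v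
      exact NF.fp_le_one _ (s i)
    have h3 : ∀ v : FinitePlace K, 0 ≤ (⨆ i, v (s i : K)) := fun v =>
      Real.iSup_nonneg fun i => apply_nonneg _ _
    by_cases hf : (Function.mulSupport fun v : FinitePlace K => ⨆ i, v (s i : K)).Finite
    · rw [finprod_eq_prod_of_mulSupport_subset _ (s := hf.toFinset) (by rw [Set.Finite.coe_toFinset])]
      exact Finset.prod_le_one (fun v _ => h3 v) fun v _ => h2 v
    · rw [finprod_of_infinite_mulSupport hf]
  have h2 : ∏ w : InfinitePlace K, (⨆ i, w (s i : K)) ^ w.mult = top s := by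
    unfold top
    refine Finset.prod_congr rfl fun w _ => ?_
    congr 1
    apply le_antisymm
    · refine ciSup_le fun i => ?_
      fin_cases i
      · exact le_max_left _ _
      · exact le_max_right _ _
    · refine max_le ?_ ?_
      · exact Finite.le_ciSup_of_le (f := fun i => w (s i : K)) 0 le_rfl
      · exact Finite.le_ciSup_of_le (f := fun i => w (s i : K)) 1 le_rfl
  rw [h2]
  have h3 : 0 ≤ top s := Finset.prod_nonneg fun w _ => by
    have : 0 ≤ max (w (s 0 : K)) (w (s 1 : K)) := le_max_of_le_left (apply_nonneg _ _)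
    positivity
  exact mul_le_of_le_one_right h3 h1

lemma mulHeight_rep (P : ℙ K (Fin 2 → K)) : P.mulHeight = Height.mulHeight P.rep := by
  conv_lhs => rw [← P.mk_rep]
  exact Projectivization.mulHeight_mk _

lemma one_le_height (P : ℙ K (Fin 2 → K)) : 1 ≤ P.mulHeight := by
  rw [mulHeight_rep]
  exact Height.one_le_mulHeight _

/-- the sum of `H_K(P) ^ (-2)` -/
lemma sum_points (K : Type) [Field K] [NumberField K] {δ : ℝ} (hδ : 0 < δ) :
    ∃ C : ℝ, 0 < C ∧ ∀ Y : ℝ, 1 ≤ Y → ∀ Z : Finset (ℙ K (Fin 2 → K)), (∀ P ∈ Z, P.mulHeight ≤ Y) →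
      ∑ P ∈ Z, (1 / P.mulHeight ^ 2) ≤ C * Y ^ δ := by
  obtain ⟨C, hC, h⟩ := PP.count_points K 1
  have step : ∀ (L : ℕ) (Z : Finset (ℙ K (Fin 2 → K))), (∀ P ∈ Z, P.mulHeight < 2 ^ L) →
      ∑ P ∈ Z, (1 / P.mulHeight ^ 2) ≤ 4 * C * L := by
    intro L
    induction L with
    | zero =>
      intro Z hZ
      have h1 : Z = ∅ := by
        rw [Finset.eq_empty_iff_forall_notMem]
        intro P hP
        have h2 := hZ P hP
        have h3 := one_le_height P
        rw [pow_zero] at h2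
        linarith
      rw [h1, Finset.sum_empty]
      simp
    | succ L ih =>
      intro Z hZ
      have h1 := ih (Z.filter fun P => P.mulHeight < 2 ^ L) (fun P hP => (Finset.mem_filter.1 hP).2)
      have h2 : ∑ P ∈ Z.filter (fun P => ¬ P.mulHeight < 2 ^ L), (1 / P.mulHeight ^ 2) ≤ 4 * C := by
        have h3 : ∀ P ∈ Z.filter (fun P => ¬ P.mulHeight < 2 ^ L), 1 / P.mulHeight ^ 2 ≤
            1 / ((2 : ℝ) ^ L) ^ 2 := by
          intro P hP
          have h4 := not_lt.1 (Finset.mem_filter.1 hP).2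
          exact one_div_le_one_div_of_le (by positivity) (pow_le_pow_left₀ (by positivity) h4 2)
        obtain ⟨W, hW, hW2⟩ := h (2 ^ (L + 1)) (one_le_pow₀ (by norm_num))
        have h5 : (Z.filter (fun P => ¬ P.mulHeight < 2 ^ L)) ⊆ W := by
          intro P hP
          exact hW2 P (hZ P (Finset.mem_filter.1 hP).1).le
        have h6 : ((Z.filter (fun P => ¬ P.mulHeight < 2 ^ L)).card : ℝ) ≤
            C * ((2 : ℝ) ^ (L + 1)) ^ (2 : ℕ) := by
          have h7 : ((Z.filter (fun P => ¬ P.mulHeight < 2 ^ L)).card : ℝ) ≤ W.card := by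
            exact_mod_cast Finset.card_le_card h5
          refine (h7.trans hW).trans (le_of_eq ?_)
          have h8 : (((1 : ℕ) : ℝ) + 1) = ((2 : ℕ) : ℝ) := by norm_num
          rw [h8, Real.rpow_natCast]
        calc ∑ P ∈ Z.filter (fun P => ¬ P.mulHeight < 2 ^ L), (1 / P.mulHeight ^ 2)
            ≤ ∑ _P ∈ Z.filter (fun P => ¬ P.mulHeight < 2 ^ L), 1 / ((2 : ℝ) ^ L) ^ 2 :=
              Finset.sum_le_sum h3
          _ = ((Z.filter (fun P => ¬ P.mulHeight < 2 ^ L)).card : ℝ) * (1 / ((2 : ℝ) ^ L) ^ 2) := by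
              rw [Finset.sum_const, nsmul_eq_mul]
          _ ≤ (C * ((2 : ℝ) ^ (L + 1)) ^ (2 : ℕ)) * (1 / ((2 : ℝ) ^ L) ^ 2) :=
              mul_le_mul_of_nonneg_right h6 (by positivity)
          _ = 4 * C := by
              rw [pow_succ (2 : ℝ) L]
              field_simp
              ring
      rw [← Finset.sum_filter_add_sum_filter_not Z (fun P => P.mulHeight < 2 ^ L)]
      push_cast
      linarith
  refine ⟨4 * C * (2 / δ + 2), by positivity, fun Y hY Z hZ => ?_⟩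
  have hY0 : 0 < Y := by linarith
  set L : ℕ := ⌈Real.logb 2 Y⌉₊ + 1 with hL
  have hlog : 0 ≤ Real.logb 2 Y := Real.logb_nonneg (by norm_num) hY
  have h1 : ∀ P ∈ Z, P.mulHeight < 2 ^ L := by
    intro P hP
    refine (hZ P hP).trans_lt ?_
    have h2 : Y = (2 : ℝ) ^ Real.logb 2 Y := (Real.rpow_logb (by norm_num) (by norm_num) hY0).symm
    rw [h2, ← Real.rpow_natCast]
    refine Real.rpow_lt_rpow_of_exponent_lt (by norm_num) ?_
    rw [hL]
    push_cast
    have := Nat.le_ceil (Real.logb 2 Y)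
    linarith
  refine (step L Z h1).trans ?_
  rw [mul_assoc (4 * C)]
  refine mul_le_mul_of_nonneg_left ?_ (by positivity)
  have h2 : (L : ℝ) ≤ Real.logb 2 Y + 2 := by
    rw [hL]
    push_cast
    have := (Nat.ceil_lt_add_one hlog).le
    linarith
  have h3 : Real.logb 2 Y ≤ 2 * Real.log Y := by
    unfold Real.logb
    rw [div_le_iff₀ (Real.log_pos (by norm_num))]
    have h4 := Real.log_two_gt_d9
    have h5 := Real.log_nonneg hY
    nlinarith
  have h4 : Real.log Y ≤ Y ^ δ / δ := Real.log_le_rpow_div hY0.le hδ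
  have h5 : 1 ≤ Y ^ δ := Real.one_le_rpow hY hδ.le
  calc (L : ℝ) ≤ 2 * (Y ^ δ / δ) + 2 := by linarith
    _ ≤ 2 * (Y ^ δ / δ) + 2 * Y ^ δ := by linarith
    _ = (2 / δ + 2) * Y ^ δ := by ring

end Pool.Agent.R366.RD
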