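import Mathlib
import Pool.Agent.R366.RD.Vals

set_option autoImplicit false

/-!
# The truncated inequality at all pairs of points, for almost all divisors of given bidegrees
-/

namespace Pool.Agent.R366.RD

open MvPolynomial NumberField IsDedekindDomain Pool.Agent.R366.NF Pool.Agent.TH910.Voj
  Pool.Agent.H813R3.Voj Pool.Agent.R366.PP

open scoped Classical LinearAlgebra.Projectivization

variable {K : Type} [Field K] [NumberField K]

/-- the exponents of a monomial of bidegree `(a, b)` -/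
noncomputable def ex (a b i k : ℕ) : Fin 4 →₀ ℕ := Finsupp.equivFunOnFinite.symm ![i, a - i, k, b - k]

lemma ex_inj {a b i k i' k' : ℕ} (h : ex a b i k = ex a b i' k') : i = i' ∧ k = k' := by
  have h0 := DFunLike.congr_fun h 0
  have h2 := DFunLike.congr_fun h 2
  simp [ex] at h0 h2
  exact ⟨h0, h2⟩

lemma eq_ex {a b : ℕ} {x : Fin 4 →₀ ℕ} (h1 : x 0 + x 1 = a) (h2 : x 2 + x 3 = b) :
    x = ex a b (x 0) (x 2) := by
  ext i
  fin_cases i
  · simp [ex]
  · simp [ex]; omega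
  · simp [ex]
  · simp [ex]; omega

/-- the coefficients of a bihomogeneous form -/
noncomputable def coeffs {R : Type} [CommRing R] (a b : ℕ) (F : MvPolynomial (Fin 4) R) :
    Fin (b + 1) → Fin (a + 1) → R := fun k i => coeff (ex a b i k) F

lemma coeffs_inj {R : Type} [CommRing R] {a b : ℕ} {F G : MvPolynomial (Fin 4) R}
    (hF : Bihom F a b) (hG : Bihom G a b) (h : coeffs a b F = coeffs a b G) : F = G := by
  ext x
  by_cases hx : x 0 + x 1 = a ∧ x 2 + x 3 = b
  · have h1 := eq_ex hx.1 hx.2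
    have h2 := congrFun (congrFun h ⟨x 2, by omega⟩) ⟨x 0, by omega⟩
    simp only [coeffs] at h2
    rw [h1]
    exact h2
  · have h1 : coeff x F = 0 := by
      by_contra h2
      exact hx (hF.exps h2)
    have h2 : coeff x G = 0 := by
      by_contra h3
      exact hx (hG.exps h3)
    rw [h1, h2]

lemma eval_bihom {R : Type} [CommRing R] {a b : ℕ} {F : MvPolynomial (Fin 4) R} (hF : Bihom F a b)
    (s t : Fin 2 → R) : eval (join s t) F = val2 a b (coeffs a b F) s t := by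
  let f : Fin (b + 1) × Fin (a + 1) → (Fin 4 →₀ ℕ) := fun z => ex a b z.2 z.1
  have hf : Function.Injective f := by
    intro z z' h
    obtain ⟨h1, h2⟩ := ex_inj h
    exact Prod.ext (Fin.ext h2) (Fin.ext h1)
  have h1 : val2 a b (coeffs a b F) s t = ∑ z : Fin (b + 1) × Fin (a + 1),
      coeff (f z) F * ∏ i, join s t i ^ (f z) i := by
    unfold val2 bin coeffs
    rw [Fintype.sum_prod_type]
    refine Finset.sum_congr rfl fun k _ => ?_
    rw [Finset.sum_mul]
    refine Finset.sum_congr rfl fun i _ => ?_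
    simp only [f, ex, Fin.prod_univ_four, join, Finsupp.equivFunOnFinite_symm_apply_apply,
      Matrix.cons_val_zero, Matrix.cons_val_one, Matrix.cons_val]
    ring
  rw [h1, eval_eq']
  have h2 : ∑ z : Fin (b + 1) × Fin (a + 1), coeff (f z) F * ∏ i, join s t i ^ (f z) i =
      ∑ x ∈ Finset.univ.image f, coeff x F * ∏ i, join s t i ^ x i := by
    rw [Finset.sum_image (fun z _ z' _ h => hf h)]
  rw [h2]
  refine Finset.sum_subset ?_ ?_
  · intro x hx
    obtain ⟨h3, h4⟩ := hF.exps (mem_support_iff.1 hx)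
    rw [Finset.mem_image]
    refine ⟨(⟨x 2, by omega⟩, ⟨x 0, by omega⟩), Finset.mem_univ _, ?_⟩
    exact (eq_ex h3 h4).symm
  · intro x _ hx
    rw [notMem_support_iff.1 hx, zero_mul]

/-- the pairs of points considered -/
def Region (H : ℝ) (m n : ℕ) (P Q : ℙ K (Fin 2 → K)) : Prop :=
  (P.mulHeight ≤ H ^ Module.finrank ℚ K ∧
    Q.mulHeight ≤ H ^ Module.finrank ℚ K * P.mulHeight ^ m) ∨
  (Q.mulHeight ≤ H ^ Module.finrank ℚ K ∧
    P.mulHeight ≤ H ^ Module.finrank ℚ K * Q.mulHeight ^ n)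

variable (K) in
/-- **the number of tuples of forms for which the inequality fails at a given pair** -/
lemma pair_bound {ℓ : ℕ} (a b : Fin ℓ → ℕ) (m n : ℕ) (hm : ∀ j, m ≤ a j) (hn : ∀ j, n ≤ b j)
    (δ : ℝ) {ε : ℝ} (hε : 0 < ε) : ∃ C : ℝ, 0 < C ∧ ∀ H : ℝ, 1 ≤ H →
    ∀ P Q : ℙ K (Fin 2 → K), Region H m n P Q →
    ∀ T : Finset (Fin ℓ → MvPolynomial (Fin 4) (𝓞 K)),
    (∀ F ∈ T, (∀ j, Bihom (F j) (a j) (b j)) ∧
      (∀ j (w : InfinitePlace K) x, w ((coeff x (F j) : 𝓞 K) : K) ≤ H) ∧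
      (∀ j, aeval (join P.rep Q.rep) (F j) ≠ 0) ∧
      truncatedCount ∅ F a b P.rep Q.rep <
        ((∑ j, (a j : ℝ)) - 2) * Real.log P.mulHeight + ((∑ j, (b j : ℝ)) - 2) * Real.log Q.mulHeight +
          (ℓ - δ) * Module.finrank ℚ K * Real.log H) →
    (T.card : ℝ) ≤ C * (1 / P.mulHeight ^ 2) * (1 / Q.mulHeight ^ 2) *
      H ^ (Module.finrank ℚ K * ((∑ j, ((a j : ℝ) + 1) * ((b j : ℝ) + 1)) - δ) + ε) := by
  set d : ℕ := Module.finrank ℚ K with hd
  have hd1 : 1 ≤ d := Module.finrank_pos (R := ℚ) (M := K)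
  have hd0 : (0 : ℝ) < d := by exact_mod_cast hd1
  obtain ⟨C0', M, hC0', hrep⟩ := rep' K (n := 1)
  set C0 : ℝ := max 1 C0' with hC0def
  have hC0 : 1 ≤ C0 := le_max_left _ _
  have hM1 : (1 : ℝ) ≤ M := by
    obtain ⟨-, -, -, -, -, N, h1, h2, -⟩ := hrep ![1, 0] (by
      intro h
      exact one_ne_zero (congrFun h 0))
    exact_mod_cast (show 1 ≤ M by omega)
  choose Cj hCj hcount using fun j : Fin ℓ => count_two K (a j) (b j) M hC0
  set E : ℕ := 1 + (1 + m + n) * ∑ j, (a j + b j) with hE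
  have hE0 : (0 : ℝ) < E := by
    have : 0 < E := by omega
    exact_mod_cast this
  set κ : ℝ := ∑ j, (((b j : ℝ) + 1) * ((a j : ℝ) + 1) * C0 ^ (a j) * C0 ^ (b j)) + 1 with hκ
  have hκ1 : 1 ≤ κ := by
    have : 0 ≤ ∑ j, (((b j : ℝ) + 1) * ((a j : ℝ) + 1) * C0 ^ (a j) * C0 ^ (b j)) :=
      Finset.sum_nonneg fun j _ => by positivity
    linarith
  set η : ℝ := ε / E with hη
  have hη0 : 0 < η := by positivity
  obtain ⟨Cv, hCv, hvals⟩ := count_values K ℓ hη0
  refine ⟨Cv * (M : ℝ) ^ (2 * d) * κ ^ η * ∏ j, Cj j,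
    mul_pos (by positivity) (Finset.prod_pos fun j _ => hCj j), ?_⟩
  intro H hH P Q hreg T hT
  have hH0 : 0 < H := by linarith
  set p : ℝ := P.mulHeight with hp
  set q : ℝ := Q.mulHeight with hq
  have hp1 : 1 ≤ p := one_le_height P
  have hq1 : 1 ≤ q := one_le_height Q
  have hp0 : 0 < p := by linarith
  have hq0 : 0 < q := by linarith
  obtain ⟨tP, htP, y, hy, hysize, N₁, hN₁, hNM₁, hmem₁⟩ := hrep P.rep P.rep_nonzero
  obtain ⟨tQ, htQ, z, hz, hzsize, N₂, hN₂, hNM₂, hmem₂⟩ := hrep Q.rep Q.rep_nonzero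
  rw [← mulHeight_rep, ← hd] at hysize hzsize
  have hy' : (fun i => (y i : K)) = tP • P.rep := by
    funext i
    exact hy i
  have hz' : (fun i => (z i : K)) = tQ • Q.rep := by
    funext i
    exact hz i
  set A : ℝ := p ^ (1 / (d : ℝ)) with hA
  set B : ℝ := q ^ (1 / (d : ℝ)) with hB
  have hA1 : 1 ≤ A := Real.one_le_rpow hp1 (by positivity)
  have hB1 : 1 ≤ B := Real.one_le_rpow hq1 (by positivity)
  have hA0 : 0 < A := by linarith
  have hB0 : 0 < B := by linarith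
  have hroot : ∀ x : ℝ, 0 ≤ x → (x ^ (1 / (d : ℝ))) ^ d = x := by
    intro x hx
    rw [← Real.rpow_natCast, ← Real.rpow_mul hx]
    have : 1 / (d : ℝ) * d = 1 := by field_simp
    rw [this, Real.rpow_one]
  have hAd : A ^ d = p := hroot p hp0.le
  have hBd : B ^ d = q := hroot q hq0.le
  have hy0 : y ≠ 0 := by
    intro h
    apply smul_ne_zero htP P.rep_nonzero
    rw [← hy', h]
    funext i
    simp
  have hz0 : z ≠ 0 := by
    intro h
    apply smul_ne_zero htQ Q.rep_nonzero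
    rw [← hz', h]
    funext i
    simp
  have hAtop : A ^ d ≤ top y := by
    have h1 := height_le_top y hy0
    rw [hy', Height.mulHeight_smul_eq_mulHeight _ htP, ← mulHeight_rep] at h1
    rw [hAd]
    exact h1
  have hBtop : B ^ d ≤ top z := by
    have h1 := height_le_top z hz0
    rw [hz', Height.mulHeight_smul_eq_mulHeight _ htQ, ← mulHeight_rep] at h1
    rw [hBd]
    exact h1
  have hys : ∀ (w : InfinitePlace K) i, w (y i : K) ≤ C0 * A := fun w i =>
    (hysize w i).trans (mul_le_mul_of_nonneg_right (le_max_right _ _) hA0.le)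
  have hzs : ∀ (w : InfinitePlace K) i, w (z i : K) ≤ C0 * B := fun w i =>
    (hzsize w i).trans (mul_le_mul_of_nonneg_right (le_max_right _ _) hB0.le)
  -- the region
  have hregion : (A ≤ H ∧ B ≤ H * A ^ m) ∨ (B ≤ H ∧ A ≤ H * B ^ n) := by
    have hmono : ∀ x u : ℝ, 0 ≤ x → 0 ≤ u → x ^ d ≤ u ^ d → x ≤ u := fun x u _ hu h =>
      le_of_pow_le_pow_left₀ (by omega) hu h
    rcases hreg with ⟨h1, h2⟩ | ⟨h1, h2⟩
    · left
      refine ⟨hmono _ _ hA0.le hH0.le (hAd.le.trans h1), hmono _ _ hB0.le (by positivity) ?_⟩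
      rw [hBd, mul_pow, ← pow_mul, mul_comm m d, pow_mul, hAd]
      exact h2
    · right
      refine ⟨hmono _ _ hB0.le hH0.le (hBd.le.trans h1), hmono _ _ hA0.le (by positivity) ?_⟩
      rw [hAd, mul_pow, ← pow_mul, mul_comm n d, pow_mul, hBd]
      exact h2
  have hAH : A ≤ H ^ (1 + m + n) ∧ B ≤ H ^ (1 + m + n) := by
    have e1 : H ≤ H ^ (1 + m + n) := le_self_pow₀ hH (by omega)
    rcases hregion with ⟨h1, h2⟩ | ⟨h1, h2⟩
    · refine ⟨h1.trans e1, h2.trans ?_⟩
      calc H * A ^ m ≤ H * H ^ m := mul_le_mul_of_nonneg_left (pow_le_pow_left₀ hA0.le h1 _) hH0.le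
        _ = H ^ (1 + m) := by rw [pow_add, pow_one]
        _ ≤ _ := pow_le_pow_right₀ hH (by omega)
    · refine ⟨h2.trans ?_, h1.trans e1⟩
      calc H * B ^ n ≤ H * H ^ n := mul_le_mul_of_nonneg_left (pow_le_pow_left₀ hB0.le h1 _) hH0.le
        _ = H ^ (1 + n) := by rw [pow_add, pow_one]
        _ ≤ _ := pow_le_pow_right₀ hH (by omega)
  have hregj : ∀ j, (A ≤ H ∧ B ≤ H * A ^ (a j)) ∨ (B ≤ H ∧ A ≤ H * B ^ (b j)) := by
    intro j
    rcases hregion with ⟨h1, h2⟩ | ⟨h1, h2⟩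
    · exact Or.inl ⟨h1, h2.trans (mul_le_mul_of_nonneg_left (pow_le_pow_right₀ hA1 (hm j)) hH0.le)⟩
    · exact Or.inr ⟨h1, h2.trans (mul_le_mul_of_nonneg_left (pow_le_pow_right₀ hB1 (hn j)) hH0.le)⟩
  set X : ℝ := κ * H ^ E with hX
  have hX1 : 1 ≤ X := one_le_mul_of_one_le_of_one_le hκ1 (one_le_pow₀ hH)
  let vals : (Fin ℓ → MvPolynomial (Fin 4) (𝓞 K)) → (Fin ℓ → 𝓞 K) := fun F j =>
    eval (join y z) (F j)
  have hval2 : ∀ F ∈ T, ∀ j, vals F j = val2 (a j) (b j) (coeffs (a j) (b j) (F j)) y z :=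
    fun F hF j => eval_bihom ((hT F hF).1 j) y z
  have hvalX : ∀ F ∈ T, ∀ (w : InfinitePlace K) j, w (vals F j : K) ≤ X := by
    intro F hF w j
    rw [hval2 F hF j]
    refine (val2_le (H := H) (fun k i => (hT F hF).2.1 j w _) (hys w) (hzs w)).trans ?_
    have e1 : ((b j : ℝ) + 1) * (((a j : ℝ) + 1) * (H * (C0 * A) ^ (a j)) * (C0 * B) ^ (b j)) =
        (((b j : ℝ) + 1) * ((a j : ℝ) + 1) * C0 ^ (a j) * C0 ^ (b j)) *
          (H * (A ^ (a j) * B ^ (b j))) := by
      rw [mul_pow, mul_pow]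
      ring
    rw [e1]
    have e2 : (((b j : ℝ) + 1) * ((a j : ℝ) + 1) * C0 ^ (a j) * C0 ^ (b j)) ≤ κ := by
      have h1 := Finset.single_le_sum (f := fun j =>
        (((b j : ℝ) + 1) * ((a j : ℝ) + 1) * C0 ^ (a j) * C0 ^ (b j)))
        (fun i _ => by positivity) (Finset.mem_univ j)
      rw [hκ]
      linarith
    refine mul_le_mul e2 ?_ (by positivity) (by linarith)
    calc H * (A ^ (a j) * B ^ (b j)) ≤ H * ((H ^ (1 + m + n)) ^ (a j) * (H ^ (1 + m + n)) ^ (b j)) := by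
          refine mul_le_mul_of_nonneg_left ?_ hH0.le
          exact mul_le_mul (pow_le_pow_left₀ hA0.le hAH.1 _) (pow_le_pow_left₀ hB0.le hAH.2 _)
            (by positivity) (by positivity)
      _ = H ^ (1 + (1 + m + n) * (a j + b j)) := by
          rw [← pow_mul, ← pow_mul, ← pow_add, ← pow_succ']
          congr 1
          ring
      _ ≤ H ^ E := by
          refine pow_le_pow_right₀ hH ?_
          rw [hE]
          have h1 := Finset.single_le_sum (f := fun j => a j + b j) (fun i _ => Nat.zero_le _)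
            (Finset.mem_univ j)
          have h2 := Nat.mul_le_mul_left (1 + m + n) h1
          omega
  have hval0 : ∀ F ∈ T, ∀ j, vals F j ≠ 0 := by
    intro F hF j h0
    have h1 := aeval_coe (F j) (join y z)
    rw [join_coe, hy', hz', aeval_join_smul (F j) ((hT F hF).1 j)] at h1
    have h2 : ((eval (join y z) (F j) : 𝓞 K) : K) = 0 := by
      have : eval (join y z) (F j) = 0 := h0
      rw [this]
      simp
    rw [h2] at h1
    exact (mul_ne_zero (mul_ne_zero (pow_ne_zero _ htP) (pow_ne_zero _ htQ))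
      ((hT F hF).2.2.1 j)) h1
  set R : ℝ := (M : ℝ) ^ (2 * d) * (p ^ (∑ j, a j) / p ^ 2) * (q ^ (∑ j, b j) / q ^ 2) *
    H ^ ((ℓ - δ) * d) with hR
  have hR0 : 0 < R := by
    have : (0 : ℝ) < M := by linarith
    positivity
  have hrad : ∀ F ∈ T, (rd (Algebra.norm ℤ (∏ j, vals F j)).natAbs : ℝ) ≤ R := by
    intro F hF
    have h1 := rd_le_trunc (vals F) (hval0 F hF)
    have h2 := trunc_transfer ∅ F a b y z (hval0 F hF) N₁ N₂ hN₁ hN₂ hmem₁ hmem₂
    rw [hy', hz', truncatedCount_smul ∅ F a b (hT F hF).1 htP htQ] at h2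
    have h3 := (hT F hF).2.2.2
    have h4 : (d : ℝ) * Real.log (N₁ * N₂ : ℕ) ≤ 2 * d * Real.log M := by
      have e1 : Real.log (N₁ * N₂ : ℕ) ≤ Real.log (M * M : ℕ) := by
        refine Real.log_le_log ?_ ?_
        · exact_mod_cast Nat.mul_pos hN₁ hN₂
        · exact_mod_cast Nat.mul_le_mul hNM₁ hNM₂
      have e2 : Real.log (M * M : ℕ) = 2 * Real.log M := by
        push_cast
        rw [Real.log_mul (by linarith) (by linarith)]
        ring
      rw [e2] at e1
      nlinarith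
    have hMpos : (0 : ℝ) < M := by linarith
    have h5 : Real.log R = 2 * d * Real.log M + ((∑ j, (a j : ℝ)) - 2) * Real.log p +
        ((∑ j, (b j : ℝ)) - 2) * Real.log q + (ℓ - δ) * d * Real.log H := by
      rw [hR, Real.log_mul (by positivity) (by positivity),
        Real.log_mul (by positivity) (by positivity),
        Real.log_mul (by positivity) (by positivity), Real.log_div (by positivity) (by positivity),
        Real.log_div (by positivity) (by positivity), Real.log_pow, Real.log_pow, Real.log_pow,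
        Real.log_pow, Real.log_pow, Real.log_rpow hH0]
      push_cast
      ring
    have h6 : Real.log (rd (Algebra.norm ℤ (∏ j, vals F j)).natAbs) ≤ Real.log R := by
      rw [h5]
      linarith [h1.trans h2]
    exact (Real.log_le_log_iff (by exact_mod_cast rd_pos _) hR0).1 h6
  -- the number of value vectors
  have hV : ((T.image vals).card : ℝ) ≤ Cv * R * X ^ η := by
    refine hvals X hX1 R hR0.le _ ?_
    intro v hv
    obtain ⟨F, hF, rfl⟩ := Finset.mem_image.1 hv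
    exact ⟨hval0 F hF, hvalX F hF, hrad F hF⟩
  -- the fibres
  set W : ℝ := ∏ j, (Cj j * (H ^ ((a j + 1) * (b j + 1) - 1) / (A ^ (a j) * B ^ (b j))) ^ d) with hW
  have hW0 : 0 ≤ W := Finset.prod_nonneg fun j _ => by
    have := hCj j
    positivity
  have hfib : ∀ v ∈ T.image vals, ((T.filter fun F => vals F = v).card : ℝ) ≤ W := by
    intro v _
    let cf : (Fin ℓ → MvPolynomial (Fin 4) (𝓞 K)) → (∀ j, Fin (b j + 1) → Fin (a j + 1) → 𝓞 K) :=
      fun F j => coeffs (a j) (b j) (F j)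
    have hinj : Set.InjOn cf ((T.filter fun F => vals F = v : Finset _) : Set _) := by
      intro F hF G hG h
      have hF' := (Finset.mem_filter.1 (Finset.mem_coe.1 hF)).1
      have hG' := (Finset.mem_filter.1 (Finset.mem_coe.1 hG)).1
      funext j
      exact coeffs_inj ((hT F hF').1 j) ((hT G hG').1 j) (congrFun h j)
    have h1 := card_le_prod ((T.filter fun F => vals F = v).image cf) (fun j =>
      (Cj j * (H ^ ((a j + 1) * (b j + 1) - 1) / (A ^ (a j) * B ^ (b j))) ^ d)) (by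
      intro j
      refine hcount j y z N₁ N₂ hN₁ hNM₁ hmem₁ hN₂ hNM₂ hmem₂ A B hA1 hB1 hAtop hBtop hys hzs H
        (hregj j) (v j) _ ?_
      intro c hc
      obtain ⟨e, he, rfl⟩ := Finset.mem_image.1 hc
      obtain ⟨F, hF, rfl⟩ := Finset.mem_image.1 he
      rw [Finset.mem_filter] at hF
      refine ⟨?_, fun w k i => (hT F hF.1).2.1 j w _⟩
      have h2 := hval2 F hF.1 j
      rw [congrFun hF.2 j] at h2
      exact h2.symm)
    rw [Finset.card_image_of_injOn hinj] at h1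
    exact h1
  have hcard : (T.card : ℝ) ≤ W * (T.image vals).card := by
    have hsum : T.card = ∑ v ∈ T.image vals, (T.filter fun F => vals F = v).card := by
      convert Finset.card_eq_sum_card_image vals T using 3
    rw [hsum]
    push_cast
    calc ∑ v ∈ T.image vals, ((T.filter fun F => vals F = v).card : ℝ)
        ≤ ∑ v ∈ T.image vals, W := Finset.sum_le_sum hfib
      _ = _ := by
        rw [Finset.sum_const, nsmul_eq_mul]
        ring
  refine (hcard.trans (mul_le_mul_of_nonneg_left hV hW0)).trans (le_of_eq ?_)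
  -- the computation
  have hWeq : W = (∏ j, Cj j) * ((H ^ d) ^ (∑ j, ((a j + 1) * (b j + 1) - 1)) /
      (p ^ (∑ j, a j) * q ^ (∑ j, b j))) := by
    rw [hW, Finset.prod_mul_distrib]
    congr 1
    have e1 : ∀ j, (H ^ ((a j + 1) * (b j + 1) - 1) / (A ^ (a j) * B ^ (b j))) ^ d =
        (H ^ d) ^ ((a j + 1) * (b j + 1) - 1) / (p ^ (a j) * q ^ (b j)) := by
      intro j
      rw [div_pow, mul_pow, ← pow_mul, ← pow_mul, ← pow_mul, mul_comm _ d, mul_comm (a j) d,
        mul_comm (b j) d, pow_mul, pow_mul, pow_mul, hAd, hBd]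
    rw [Finset.prod_congr rfl fun j _ => e1 j, Finset.prod_div_distrib, Finset.prod_mul_distrib,
      Finset.prod_pow_eq_pow_sum, Finset.prod_pow_eq_pow_sum, Finset.prod_pow_eq_pow_sum]
  have hHpow : (H ^ d) ^ (∑ j, ((a j + 1) * (b j + 1) - 1)) * H ^ ((ℓ - δ) * d) * (H ^ E) ^ η =
      H ^ (d * ((∑ j, ((a j : ℝ) + 1) * ((b j : ℝ) + 1)) - δ) + ε) := by
    rw [← pow_mul, ← Real.rpow_natCast, ← Real.rpow_natCast H E, ← Real.rpow_mul hH0.le,
      ← Real.rpow_add hH0, ← Real.rpow_add hH0]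
    congr 1
    have e1 : (E : ℝ) * η = ε := by
      rw [hη]
      field_simp
    rw [e1]
    have e2 : ((∑ j, ((a j + 1) * (b j + 1) - 1) : ℕ) : ℝ) =
        (∑ j, ((a j : ℝ) + 1) * ((b j : ℝ) + 1)) - ℓ := by
      rw [Nat.cast_sum]
      have e3 : ∀ j, (((a j + 1) * (b j + 1) - 1 : ℕ) : ℝ) = ((a j : ℝ) + 1) * ((b j : ℝ) + 1) - 1 := by
        intro j
        rw [Nat.cast_sub (Nat.mul_pos (Nat.succ_pos _) (Nat.succ_pos _))]
        push_cast
        ring
      rw [Finset.sum_congr rfl fun j _ => e3 j, Finset.sum_sub_distrib, Finset.sum_const,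
        Finset.card_univ, Fintype.card_fin, nsmul_eq_mul, mul_one]
    rw [Nat.cast_mul, e2]
    ring
  rw [← hHpow, hWeq, hX, Real.mul_rpow (by linarith) (by positivity), hR]
  have hpp : p ^ (∑ j, a j) ≠ 0 := by positivity
  have hqq : q ^ (∑ j, b j) ≠ 0 := by positivity
  field_simp

variable (K) in
/-- **almost all divisors, at all pairs of points** -/
theorem main_random {ℓ : ℕ} (a b : Fin ℓ → ℕ) (m n : ℕ) (hm : ∀ j, m ≤ a j) (hn : ∀ j, n ≤ b j)
    (δ : ℝ) {ε : ℝ} (hε : 0 < ε) : ∃ C : ℝ, 0 < C ∧ ∀ H : ℝ, 1 ≤ H →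
    ∀ T : Finset (Fin ℓ → MvPolynomial (Fin 4) (𝓞 K)),
    (∀ F ∈ T, (∀ j, Bihom (F j) (a j) (b j)) ∧
      (∀ j (w : InfinitePlace K) x, w ((coeff x (F j) : 𝓞 K) : K) ≤ H) ∧
      ∃ P Q : ℙ K (Fin 2 → K), Region H m n P Q ∧ (∀ j, aeval (join P.rep Q.rep) (F j) ≠ 0) ∧
      truncatedCount ∅ F a b P.rep Q.rep <
        ((∑ j, (a j : ℝ)) - 2) * Real.log P.mulHeight + ((∑ j, (b j : ℝ)) - 2) * Real.log Q.mulHeight +
          (ℓ - δ) * Module.finrank ℚ K * Real.log H) →
    (T.card : ℝ) ≤ C *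
      H ^ (Module.finrank ℚ K * ((∑ j, ((a j : ℝ) + 1) * ((b j : ℝ) + 1)) - δ) + ε) := by
  set d : ℕ := Module.finrank ℚ K with hd
  have hd1 : 1 ≤ d := Module.finrank_pos (R := ℚ) (M := K)
  have hd0 : (0 : ℝ) < d := by exact_mod_cast hd1
  obtain ⟨C₁, hC₁, h₁⟩ := pair_bound K a b m n hm hn δ (half_pos hε)
  set η : ℝ := ε / (4 * (d * (1 + m + n : ℕ))) with hη
  have hη0 : 0 < η := by positivity
  obtain ⟨C₂, hC₂, h₂⟩ := sum_points K hη0
  obtain ⟨Cp, hCp, hpts⟩ := PP.count_points K 1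
  refine ⟨C₁ * C₂ ^ 2, by positivity, fun H hH T hT => ?_⟩
  have hH0 : 0 < H := by linarith
  set Y : ℝ := (H ^ (1 + m + n)) ^ d with hY
  have hY1 : 1 ≤ Y := one_le_pow₀ (one_le_pow₀ hH)
  obtain ⟨Z', -, hZ'⟩ := hpts Y hY1
  set Z := Z'.filter fun P => P.mulHeight ≤ Y with hZ
  have hZmem : ∀ P : ℙ K (Fin 2 → K), P.mulHeight ≤ Y → P ∈ Z := fun P hP => by
    rw [hZ, Finset.mem_filter]
    exact ⟨hZ' P hP, hP⟩
  have hS := h₂ Y hY1 Z (fun P hP => (Finset.mem_filter.1 hP).2)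
  -- points of the region are in `Z`
  have hregZ : ∀ P Q : ℙ K (Fin 2 → K), Region H m n P Q → P ∈ Z ∧ Q ∈ Z := by
    intro P Q hreg
    have e1 : H ^ d ≤ Y := by
      rw [hY]
      exact pow_le_pow_left₀ hH0.le (le_self_pow₀ hH (by omega)) _
    rcases hreg with ⟨g1, g2⟩ | ⟨g1, g2⟩
    · refine ⟨hZmem P (g1.trans e1), hZmem Q (g2.trans ?_)⟩
      have hP0 : 0 ≤ P.mulHeight := zero_le_one.trans (one_le_height P)
      calc H ^ d * P.mulHeight ^ m ≤ H ^ d * (H ^ d) ^ m :=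
            mul_le_mul_of_nonneg_left (pow_le_pow_left₀ hP0 g1 _) (by positivity)
        _ = (H ^ (1 + m)) ^ d := by rw [← pow_mul, ← pow_mul, ← pow_add]; congr 1; ring
        _ ≤ Y := pow_le_pow_left₀ (by positivity) (pow_le_pow_right₀ hH (by omega)) _
    · refine ⟨hZmem P (g2.trans ?_), hZmem Q (g1.trans e1)⟩
      have hQ0 : 0 ≤ Q.mulHeight := zero_le_one.trans (one_le_height Q)
      calc H ^ d * Q.mulHeight ^ n ≤ H ^ d * (H ^ d) ^ n :=
            mul_le_mul_of_nonneg_left (pow_le_pow_left₀ hQ0 g1 _) (by positivity)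
        _ = (H ^ (1 + n)) ^ d := by rw [← pow_mul, ← pow_mul, ← pow_add]; congr 1; ring
        _ ≤ Y := pow_le_pow_left₀ (by positivity) (pow_le_pow_right₀ hH (by omega)) _
  let bad : ℙ K (Fin 2 → K) × ℙ K (Fin 2 → K) → (Fin ℓ → MvPolynomial (Fin 4) (𝓞 K)) → Prop :=
    fun z F => Region H m n z.1 z.2 ∧ (∀ j, aeval (join z.1.rep z.2.rep) (F j) ≠ 0) ∧
      truncatedCount ∅ F a b z.1.rep z.2.rep <
        ((∑ j, (a j : ℝ)) - 2) * Real.log z.1.mulHeight + ((∑ j, (b j : ℝ)) - 2) * Real.log z.2.mulHeight +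
          (ℓ - δ) * d * Real.log H
  have hsub : T ⊆ (Z ×ˢ Z).biUnion fun z => T.filter fun F => bad z F := by
    intro F hF
    obtain ⟨-, -, P, Q, hreg, hne, hlt⟩ := hT F hF
    rw [Finset.mem_biUnion]
    refine ⟨(P, Q), ?_, ?_⟩
    · rw [Finset.mem_product]
      exact hregZ P Q hreg
    · rw [Finset.mem_filter]
      exact ⟨hF, hreg, hne, hlt⟩
  set e : ℝ := d * ((∑ j, ((a j : ℝ) + 1) * ((b j : ℝ) + 1)) - δ) with he
  have hone : ∀ z ∈ Z ×ˢ Z, ((T.filter fun F => bad z F).card : ℝ) ≤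
      C₁ * (1 / z.1.mulHeight ^ 2) * (1 / z.2.mulHeight ^ 2) * H ^ (e + ε / 2) := by
    intro z _
    have hpos1 : 0 < z.1.mulHeight := zero_lt_one.trans_le (one_le_height _)
    have hpos2 : 0 < z.2.mulHeight := zero_lt_one.trans_le (one_le_height _)
    by_cases hreg : Region H m n z.1 z.2
    · refine h₁ H hH z.1 z.2 hreg _ ?_
      intro F hF
      rw [Finset.mem_filter] at hF
      exact ⟨(hT F hF.1).1, (hT F hF.1).2.1, hF.2.2.1, hF.2.2.2⟩
    · have h3 : (T.filter fun F => bad z F) = ∅ := by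
        rw [Finset.filter_eq_empty_iff]
        intro F _ h
        exact hreg h.1
      rw [h3, Finset.card_empty, Nat.cast_zero]
      positivity
  have h3 : (T.card : ℝ) ≤ ∑ z ∈ Z ×ˢ Z, ((T.filter fun F => bad z F).card : ℝ) := by
    have h4 := (Finset.card_le_card hsub).trans Finset.card_biUnion_le
    exact_mod_cast h4
  have hYη : Y ^ η * Y ^ η * H ^ (e + ε / 2) = H ^ (e + ε) := by
    rw [hY, ← pow_mul, ← Real.rpow_natCast, ← Real.rpow_mul hH0.le, ← Real.rpow_add hH0,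
      ← Real.rpow_add hH0]
    congr 1
    have e1 : (((1 + m + n) * d : ℕ) : ℝ) * η = ε / 4 := by
      rw [hη]
      push_cast
      field_simp
    rw [e1]
    ring
  have hS0 : 0 ≤ ∑ P ∈ Z, (1 / P.mulHeight ^ 2) := Finset.sum_nonneg fun P _ => by
    have : 0 < P.mulHeight := zero_lt_one.trans_le (one_le_height _)
    positivity
  calc (T.card : ℝ) ≤ ∑ z ∈ Z ×ˢ Z, ((T.filter fun F => bad z F).card : ℝ) := h3
    _ ≤ ∑ z ∈ Z ×ˢ Z, C₁ * (1 / z.1.mulHeight ^ 2) * (1 / z.2.mulHeight ^ 2) * H ^ (e + ε / 2) :=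
        Finset.sum_le_sum hone
    _ = C₁ * ((∑ P ∈ Z, (1 / P.mulHeight ^ 2)) * (∑ Q ∈ Z, (1 / Q.mulHeight ^ 2))) *
          H ^ (e + ε / 2) := by
        rw [Finset.sum_product, Finset.sum_mul_sum, Finset.mul_sum, Finset.sum_mul]
        refine Finset.sum_congr rfl fun P _ => ?_
        rw [Finset.mul_sum, Finset.sum_mul]
        refine Finset.sum_congr rfl fun Q _ => ?_
        ring
    _ ≤ C₁ * ((C₂ * Y ^ η) * (C₂ * Y ^ η)) * H ^ (e + ε / 2) := by
        refine mul_le_mul_of_nonneg_right ?_ (by positivity)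
        exact mul_le_mul_of_nonneg_left (mul_le_mul hS hS hS0 (by positivity)) hC₁.le
    _ = C₁ * C₂ ^ 2 * (Y ^ η * Y ^ η * H ^ (e + ε / 2)) := by ring
    _ = _ := by rw [hYη]

end Pool.Agent.R366.RD
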